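import Mathlib.Topology.Sheaves.Presheaf
import Mathlib.Algebra.Field.ZMod
import Mathlib.Data.Int.Star
import Mathlib.Algebra.Order.Ring.Star
import Mathlib.Algebra.MvPolynomial.PDeriv
import Mathlib.RingTheory.Polynomial.GaussLemma
import Mathlib.Analysis.SpecialFunctions.Pow.Real
import Mathlib.Analysis.InnerProductSpace.Basic
import Mathlib.Analysis.RCLike.Lemmas
import Mathlib.Algebra.MvPolynomial.Funext
import Mathlib.Algebra.Order.Chebyshev
import Mathlib.RingTheory.Polynomial.Resultant.Basic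
import Mathlib.Combinatorics.SimpleGraph.Basic
import Mathlib.RingTheory.PiTensorProduct
import Mathlib.RingTheory.MvPolynomial.IrreducibleQuadratic
import Mathlib.Tactic.Polynomial.Basic
import Mathlib.Topology.Algebra.MvPolynomial
import Pool.Agent.MP_8bdec9_gt.LS

-- ======== part 0: formerly Pool.Agent.MP_6c3157_co.Basic
section MrgPart0

/-!
Counting lemmas and one-variable root lemmas.
-/

set_option maxSynthPendingDepth 3

namespace Pool.Agent.MP_6c3157_co

open Finset

/-- Finitely many polynomials, each with a non-root, have a common non-root. -/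
lemma exists_avoid {σ ι : Type*} (s : Finset ι) (f : ι → MvPolynomial σ ℝ)
    (h : ∀ i ∈ s, ∃ x, MvPolynomial.eval x (f i) ≠ 0) :
    ∃ x, ∀ i ∈ s, MvPolynomial.eval x (f i) ≠ 0 := by
  have h0 : ∏ i ∈ s, f i ≠ 0 := by
    rw [Finset.prod_ne_zero_iff]
    intro i hi h0
    obtain ⟨x, hx⟩ := h i hi
    simp [h0] at hx
  by_contra hcon
  push Not at hcon
  apply h0
  apply MvPolynomial.funext
  intro x
  obtain ⟨i, hi, hx⟩ := hcon x
  rw [map_prod, map_zero]
  exact Finset.prod_eq_zero hi hx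

lemma exists_eval_ne {σ : Type*} {f : MvPolynomial σ ℝ} (h : f ≠ 0) :
    ∃ x, MvPolynomial.eval x f ≠ 0 := by
  by_contra hcon
  push Not at hcon
  exact h (MvPolynomial.funext (by simpa using hcon))

/-- A property that holds off a proper algebraic set. -/
def Gen {σ : Type*} (P : (σ → ℝ) → Prop) : Prop :=
  ∃ f : MvPolynomial σ ℝ, f ≠ 0 ∧ ∀ m, MvPolynomial.eval m f ≠ 0 → P m

lemma Gen.of_poly {σ : Type*} {P : (σ → ℝ) → Prop} (f : MvPolynomial σ ℝ)
    (h0 : ¬ ∀ x, MvPolynomial.eval x f = 0) (h : ∀ m, MvPolynomial.eval m f ≠ 0 → P m) : Gen P :=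
  ⟨f, fun hf => h0 fun x => by simp [hf], h⟩

lemma Gen.of_all {σ : Type*} {P : (σ → ℝ) → Prop} (h : ∀ m, P m) : Gen P :=
  ⟨1, one_ne_zero, fun m _ => h m⟩

lemma Gen.and {σ : Type*} {P Q : (σ → ℝ) → Prop} (h1 : Gen P) (h2 : Gen Q) :
    Gen fun m => P m ∧ Q m := by
  obtain ⟨f, hf, h1⟩ := h1
  obtain ⟨g, hg, h2⟩ := h2
  refine ⟨f * g, mul_ne_zero hf hg, fun m hm => ?_⟩
  rw [map_mul] at hm
  exact ⟨h1 m (left_ne_zero_of_mul hm), h2 m (right_ne_zero_of_mul hm)⟩

lemma Gen.all {σ ι : Type*} (s : Finset ι) {P : ι → (σ → ℝ) → Prop} (h : ∀ i ∈ s, Gen (P i)) :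
    Gen fun m => ∀ i ∈ s, P i m := by
  choose! f hf using h
  refine ⟨∏ i ∈ s, f i, Finset.prod_ne_zero_iff.2 fun i hi => (hf i hi).1, fun m hm i hi => ?_⟩
  rw [map_prod] at hm
  exact (hf i hi).2 m (Finset.prod_ne_zero_iff.1 hm i hi)

lemma Gen.ex {σ : Type*} {P : (σ → ℝ) → Prop} (h : Gen P) : ∃ m, P m := by
  obtain ⟨f, hf, h⟩ := h
  obtain ⟨m, hm⟩ := exists_eval_ne hf
  exact ⟨m, h m hm⟩

/-- Large sets with small pairwise intersections are nearly disjoint. -/
lemma heavy_sum {α : Type*} (U : Finset α) (F : Finset (Finset α)) (C : ℝ)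
    (hC : 0 ≤ C) (hU : ∀ S ∈ F, S ⊆ U)
    (hbig : ∀ S ∈ F, 2 * C * U.card ≤ (S.card : ℝ) ^ 2)
    (hint' : ∀ S ∈ F, ∀ T ∈ F, S ≠ T → ∀ W : Finset α, (∀ a ∈ W, a ∈ S ∧ a ∈ T) →
      (W.card : ℝ) ≤ C) :
    ∑ S ∈ F, (S.card : ℝ) ≤ 2 * U.card := by
  classical
  have hint : ∀ S ∈ F, ∀ T ∈ F, S ≠ T → ((S ∩ T).card : ℝ) ≤ C := fun S hS T hT h =>
    hint' S hS T hT h _ fun a ha => Finset.mem_inter.1 ha
  set I : ℝ := ∑ S ∈ F, (S.card : ℝ) with hI
  let d : α → ℝ := fun a => ∑ S ∈ F, if a ∈ S then (1 : ℝ) else 0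
  have hcard : ∀ S : Finset α, S ⊆ U → ∑ a ∈ U, (if a ∈ S then (1 : ℝ) else 0) = S.card := by
    intro S hS
    rw [Finset.sum_ite_mem, Finset.inter_eq_right.2 hS]
    simp
  have h1 : ∑ a ∈ U, d a = I := by
    rw [Finset.sum_comm]
    exact Finset.sum_congr rfl fun S hS => hcard S (hU S hS)
  have h2 : ∑ a ∈ U, d a ^ 2 = ∑ S ∈ F, ∑ T ∈ F, ((S ∩ T).card : ℝ) := by
    have : ∀ a, d a ^ 2 = ∑ S ∈ F, ∑ T ∈ F, if a ∈ S ∩ T then (1 : ℝ) else 0 := by
      intro a
      rw [sq, Finset.sum_mul_sum]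
      refine Finset.sum_congr rfl fun S _ => Finset.sum_congr rfl fun T _ => ?_
      by_cases h1 : a ∈ S <;> by_cases h2 : a ∈ T <;> simp [h1, h2]
    simp_rw [this]
    rw [Finset.sum_comm]
    refine Finset.sum_congr rfl fun S hS => ?_
    rw [Finset.sum_comm]
    exact Finset.sum_congr rfl fun T _ => hcard _ (Finset.inter_subset_left.trans (hU S hS))
  have h3 : ∑ S ∈ F, ∑ T ∈ F, ((S ∩ T).card : ℝ) ≤ I + C * (F.card : ℝ) ^ 2 := by
    have : ∀ S ∈ F, ∑ T ∈ F, ((S ∩ T).card : ℝ) ≤ S.card + C * F.card := by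
      intro S hS
      calc ∑ T ∈ F, ((S ∩ T).card : ℝ) ≤ ∑ T ∈ F, ((if T = S then (S.card : ℝ) else 0) + C) := by
            refine Finset.sum_le_sum fun T hT => ?_
            by_cases h : T = S
            · subst h; simp [hC]
            · simpa [h] using hint S hS T hT (Ne.symm h)
        _ = S.card + C * F.card := by
            rw [Finset.sum_add_distrib, Finset.sum_ite_eq' F S, if_pos hS]
            simp [mul_comm]
    calc _ ≤ ∑ S ∈ F, ((S.card : ℝ) + C * F.card) := Finset.sum_le_sum this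
      _ = _ := by rw [Finset.sum_add_distrib]; simp [hI]; ring
  have h4 : I ^ 2 ≤ U.card * ∑ a ∈ U, d a ^ 2 := by
    rw [← h1]; exact sq_sum_le_card_mul_sum_sq
  have hI0 : 0 ≤ I := Finset.sum_nonneg fun S _ => by positivity
  have h5 : 2 * C * U.card * (F.card : ℝ) ^ 2 ≤ I ^ 2 := by
    have hs : (F.card : ℝ) * Real.sqrt (2 * C * U.card) ≤ I := by
      calc (F.card : ℝ) * Real.sqrt (2 * C * U.card) = ∑ S ∈ F, Real.sqrt (2 * C * U.card) := by simp
        _ ≤ I := Finset.sum_le_sum fun S hS => Real.sqrt_le_iff.2 ⟨by positivity, hbig S hS⟩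
    have h0 : 0 ≤ 2 * C * (U.card : ℝ) := by positivity
    calc 2 * C * U.card * (F.card : ℝ) ^ 2 = ((F.card : ℝ) * Real.sqrt (2 * C * U.card)) ^ 2 := by
          rw [mul_pow, Real.sq_sqrt h0]; ring
      _ ≤ I ^ 2 := by gcongr
  have hU0 : (0 : ℝ) ≤ U.card := by positivity
  have h6 : I ^ 2 ≤ U.card * (I + C * (F.card : ℝ) ^ 2) := h4.trans (by rw [h2]; gcongr)
  have h7 : I * I ≤ (2 * U.card) * I := by nlinarith
  rcases hI0.eq_or_lt with h | h
  · rw [← h]; positivity
  · exact le_of_mul_le_mul_right h7 h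

/-- The Kovari-Sos-Turan bound for graphs in which two left vertices have few common neighbours. -/
lemma kst {α β : Type*} (A : Finset α) (B : Finset β)
    (G : Finset (α × β)) (hG : G ⊆ A ×ˢ B) (s : ℝ) (hs : 0 ≤ s)
    (h' : ∀ a ∈ A, ∀ a' ∈ A, a ≠ a' → ∀ W : Finset β,
      (∀ b ∈ W, (a, b) ∈ G ∧ (a', b) ∈ G) → (W.card : ℝ) ≤ s) :
    (G.card : ℝ) ≤ B.card + A.card * Real.sqrt (s * B.card) := by
  classical
  have h : ∀ a ∈ A, ∀ a' ∈ A, a ≠ a' →
      ((B.filter fun b => (a, b) ∈ G ∧ (a', b) ∈ G).card : ℝ) ≤ s := fun a ha a' ha' hne =>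
    h' a ha a' ha' hne _ fun b hb => (Finset.mem_filter.1 hb).2
  let d : β → ℝ := fun b => ∑ a ∈ A, if (a, b) ∈ G then (1 : ℝ) else 0
  have h1 : ∑ b ∈ B, d b = G.card := by
    rw [Finset.sum_comm, ← Finset.sum_product' (f := fun a b => if (a, b) ∈ G then (1 : ℝ) else 0)]
    rw [Finset.sum_ite_mem, Finset.inter_eq_right.2 hG]
    simp
  have h2 : ∑ b ∈ B, d b ^ 2 ≤ G.card + s * (A.card : ℝ) ^ 2 := by
    have e1 : ∀ b, d b ^ 2 = ∑ a ∈ A, ∑ a' ∈ A, if (a, b) ∈ G ∧ (a', b) ∈ G then (1 : ℝ) else 0 := by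
      intro b
      rw [sq, Finset.sum_mul_sum]
      refine Finset.sum_congr rfl fun a _ => Finset.sum_congr rfl fun a' _ => ?_
      by_cases h1 : (a, b) ∈ G <;> by_cases h2 : (a', b) ∈ G <;> simp [h1, h2]
    simp_rw [e1]
    rw [Finset.sum_comm, ← h1, Finset.sum_comm (s := B)]
    have e2 : ∀ a ∈ A, ∑ b ∈ B, ∑ a' ∈ A, (if (a, b) ∈ G ∧ (a', b) ∈ G then (1 : ℝ) else 0) ≤
        (∑ b ∈ B, if (a, b) ∈ G then (1 : ℝ) else 0) + s * A.card := by
      intro a ha
      rw [Finset.sum_comm]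
      calc _ ≤ ∑ a' ∈ A, ((if a' = a then (∑ b ∈ B, if (a, b) ∈ G then (1 : ℝ) else 0) else 0) + s) := by
            refine Finset.sum_le_sum fun a' ha' => ?_
            by_cases e : a' = a
            · subst e; simp [hs]
            · rw [if_neg e, zero_add, Finset.sum_boole]
              exact h a ha a' ha' (Ne.symm e)
        _ = _ := by
            rw [Finset.sum_add_distrib, Finset.sum_ite_eq' A a, if_pos ha]
            simp [mul_comm]
    calc _ ≤ ∑ a ∈ A, ((∑ b ∈ B, if (a, b) ∈ G then (1 : ℝ) else 0) + s * A.card) :=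
          Finset.sum_le_sum e2
      _ = _ := by rw [Finset.sum_add_distrib]; simp only [Finset.sum_const, nsmul_eq_mul]; ring
  have h4 : (G.card : ℝ) ^ 2 ≤ B.card * ∑ b ∈ B, d b ^ 2 := by
    rw [← h1]; exact sq_sum_le_card_mul_sum_sq
  have hB : (0 : ℝ) ≤ B.card := by positivity
  have h5 : (G.card : ℝ) ^ 2 ≤ B.card * (G.card + s * (A.card : ℝ) ^ 2) := h4.trans (by gcongr)
  set r : ℝ := A.card * Real.sqrt (s * B.card) with hr
  have hr0 : 0 ≤ r := by positivity
  have hr2 : r ^ 2 = B.card * (s * (A.card : ℝ) ^ 2) := by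
    rw [hr, mul_pow, Real.sq_sqrt (by positivity)]; ring
  by_contra hcon
  push Not at hcon
  nlinarith

lemma card_le_fib {α β : Type*} (G : Finset α) (φ : α → β) (B : Finset β)
    (hφ : ∀ a ∈ G, φ a ∈ B) (c : ℝ)
    (h : ∀ b ∈ B, ∀ W ⊆ G, (∀ a ∈ W, φ a = b) → (W.card : ℝ) ≤ c) :
    (G.card : ℝ) ≤ B.card * c := by
  classical
  rw [Finset.card_eq_sum_card_fiberwise (f := φ) (t := B) (fun a ha => hφ a ha)]
  push_cast
  calc _ ≤ ∑ _b ∈ B, c := Finset.sum_le_sum fun b hb =>
        h b hb _ (Finset.filter_subset _ _) fun a ha => (Finset.mem_filter.1 ha).2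
    _ = _ := by simp

lemma pairs_in_family {α : Type*} (U : Finset α) (F : Finset (Finset α)) (C r : ℝ)
    (hC : 0 ≤ C) (hr : 0 ≤ r) (hU : ∀ S ∈ F, S ⊆ U)
    (hbig : ∀ S ∈ F, 2 * C * U.card ≤ (S.card : ℝ) ^ 2)
    (hint : ∀ S ∈ F, ∀ T ∈ F, S ≠ T → ∀ W : Finset α, (∀ a ∈ W, a ∈ S ∧ a ∈ T) →
      (W.card : ℝ) ≤ C)
    (hsm : ∀ S ∈ F, (S.card : ℝ) ≤ r) (G : Finset (α × α))
    (hG : ∀ p ∈ G, ∃ S ∈ F, p.1 ∈ S ∧ p.2 ∈ S) : (G.card : ℝ) ≤ 2 * U.card * r := by
  classical
  have h1 : G ⊆ F.biUnion fun S => S ×ˢ S := by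
    intro p hp
    obtain ⟨S, hS, h1, h2⟩ := hG p hp
    exact Finset.mem_biUnion.2 ⟨S, hS, Finset.mem_product.2 ⟨h1, h2⟩⟩
  have h2 : (G.card : ℝ) ≤ ∑ S ∈ F, (S.card : ℝ) * S.card := by
    have := (Finset.card_le_card h1).trans Finset.card_biUnion_le
    simp only [Finset.card_product] at this
    exact_mod_cast this
  calc (G.card : ℝ) ≤ ∑ S ∈ F, (S.card : ℝ) * r :=
        h2.trans (Finset.sum_le_sum fun S hS => by gcongr; exact hsm S hS)
    _ = (∑ S ∈ F, (S.card : ℝ)) * r := by rw [Finset.sum_mul]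
    _ ≤ _ := by gcongr; exact heavy_sum U F C hC hU hbig hint

lemma card_le_three {α : Type*} (G A B C : Finset α) (h : ∀ a ∈ G, a ∈ A ∨ a ∈ B ∨ a ∈ C) :
    (G.card : ℝ) ≤ A.card + B.card + C.card := by
  classical
  have h4 : G ⊆ (A ∪ B) ∪ C := by
    intro a ha
    simp only [Finset.mem_union, or_assoc]
    exact h a ha
  exact_mod_cast (Finset.card_le_card h4).trans ((Finset.card_union_le _ _).trans
    (Nat.add_le_add_right (Finset.card_union_le _ _) _))

lemma card_le_two' {α : Type*} (G A B : Finset α) (h : ∀ a ∈ G, a ∈ A ∨ a ∈ B) :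
    (G.card : ℝ) ≤ A.card + B.card := by
  simpa using card_le_three G A B ∅ fun a ha => by simpa using h a ha

lemma card_le_sum {α β : Type*} (G : Finset α) (B : Finset β) (S : β → Finset α)
    (h : ∀ a ∈ G, ∃ b ∈ B, a ∈ S b) : (G.card : ℝ) ≤ ∑ b ∈ B, ((S b).card : ℝ) := by
  classical
  have h4 : G ⊆ B.biUnion S := fun a ha => Finset.mem_biUnion.2 (h a ha)
  exact_mod_cast (Finset.card_le_card h4).trans Finset.card_biUnion_le

/-- A finite set of roots of a nonzero polynomial is small. -/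
lemma card_le_of_roots {H : Polynomial ℝ} (hH : H ≠ 0) (T : Finset ℝ)
    (hT : ∀ t ∈ T, H.eval t = 0) : T.card ≤ H.natDegree := by
  refine Polynomial.card_le_degree_of_subset_roots ?_
  intro t ht
  rw [Polynomial.mem_roots hH]
  exact hT t ht

/-- The number of roots below a given point. -/
noncomputable def idx (H : Polynomial ℝ) (t : ℝ) : ℕ := (H.roots.toFinset.filter (· < t)).card

lemma idx_le (H : Polynomial ℝ) (t : ℝ) : idx H t ≤ H.natDegree :=
  (Finset.card_filter_le _ _).trans ((Multiset.toFinset_card_le _).trans H.card_roots')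

lemma no_root_between {H : Polynomial ℝ} (hH : H ≠ 0) {a b : ℝ} (hb : H.eval b ≠ 0)
    (h : idx H a = idx H b) {u : ℝ} (hau : a ≤ u) (hub : u ≤ b) : H.eval u ≠ 0 := by
  intro hu
  have hlt : u < b := lt_of_le_of_ne hub (by rintro rfl; exact hb hu)
  have : H.roots.toFinset.filter (· < a) ⊂ H.roots.toFinset.filter (· < b) := by
    rw [Finset.ssubset_iff_of_subset]
    · refine ⟨u, ?_, ?_⟩
      · simp [hH, hu, hlt]
      · simp [hau]
    · intro x hx
      rw [Finset.mem_filter] at hx ⊢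
      exact ⟨hx.1, hx.2.trans_le (hau.trans hub)⟩
  exact absurd h (Finset.card_lt_card this).ne

/-- Restriction of a polynomial to a polynomial curve. -/
noncomputable def res {σ : Type*} (γ : σ → Polynomial ℝ) (f : MvPolynomial σ ℝ) : Polynomial ℝ :=
  MvPolynomial.aeval γ f

lemma res_eval {σ : Type*} (γ : σ → Polynomial ℝ) (f : MvPolynomial σ ℝ) (t : ℝ) :
    (res γ f).eval t = MvPolynomial.eval (fun i => (γ i).eval t) f := by
  unfold res
  induction f using MvPolynomial.induction_on with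
  | C a => simp
  | add p q hp hq => simp [hp, hq]
  | mul_X p i hp => simp [hp]

lemma res_natDegree {σ : Type*} (γ : σ → Polynomial ℝ) (f : MvPolynomial σ ℝ) {D : ℕ}
    (hf : f.totalDegree ≤ D) (hγ : ∀ i, (γ i).natDegree ≤ 1) : (res γ f).natDegree ≤ D := by
  simpa [res] using MvPolynomial.aeval_natDegree_le f hf γ hγ

/-- Restriction to the line `a + t e`. -/
lemma exists_line_poly {σ : Type*} (a e : σ → ℝ) (f : MvPolynomial σ ℝ) {D : ℕ}
    (hf : f.totalDegree ≤ D) : ∃ H : Polynomial ℝ, H.natDegree ≤ D ∧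
      ∀ t, H.eval t = MvPolynomial.eval (fun i => a i + t * e i) f := by
  refine ⟨res (fun i => Polynomial.C (a i) + Polynomial.X * Polynomial.C (e i)) f,
    res_natDegree _ _ hf fun i => ?_, fun t => ?_⟩
  · compute_degree
  · rw [res_eval]
    simp only [Polynomial.eval_add, Polynomial.eval_C, Polynomial.eval_mul, Polynomial.eval_X]

end Pool.Agent.MP_6c3157_co

end MrgPart0

-- ======== part 1: formerly Pool.Agent.MP_6c3157_co.Partition
section MrgPart1

/-!
Polynomial ham sandwich and polynomial partitioning.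
-/

set_option maxSynthPendingDepth 3

namespace Pool.Agent.MP_6c3157_co

open Finset

/-- The polynomial with box coefficients `c`. -/
noncomputable def boxPoly {d e : ℕ} (c : (Fin d → Fin (e + 1)) → ℝ) : MvPolynomial (Fin d) ℝ :=
  ∑ α, MvPolynomial.monomial (Finsupp.equivFunOnFinite.symm fun i => (α i : ℕ)) (c α)

lemma boxPoly_eval {d e : ℕ} (c : (Fin d → Fin (e + 1)) → ℝ) (y : Fin d → ℝ) :
    MvPolynomial.eval y (boxPoly c) = ∑ α, c α * ∏ i, y i ^ (α i : ℕ) := by
  simp [boxPoly, MvPolynomial.eval_monomial, Finsupp.prod_fintype]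

lemma boxPoly_ne {d e : ℕ} {c : (Fin d → Fin (e + 1)) → ℝ} (hc : c ≠ 0) : boxPoly c ≠ 0 := by
  intro h
  apply hc
  funext β
  have := congrArg (MvPolynomial.coeff (Finsupp.equivFunOnFinite.symm fun i => (β i : ℕ))) h
  rw [boxPoly, MvPolynomial.coeff_sum, Finset.sum_eq_single β] at this
  · simpa using this
  · intro α _ hα
    rw [MvPolynomial.coeff_monomial, if_neg]
    intro h'
    apply hα
    funext i
    have := congrArg (fun g => g i) h'
    simpa [Fin.ext_iff] using this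
  · simp

lemma boxPoly_deg {d e : ℕ} (c : (Fin d → Fin (e + 1)) → ℝ) :
    (boxPoly c).totalDegree ≤ d * e := by
  refine (MvPolynomial.totalDegree_finsetSum _ _).trans (Finset.sup_le fun α _ => ?_)
  refine (MvPolynomial.totalDegree_monomial_le _ _).trans ?_
  rw [Finsupp.sum_fintype _ _ (by simp)]
  calc ∑ i, id ((Finsupp.equivFunOnFinite.symm fun i => (α i : ℕ)) i) ≤ ∑ _i : Fin d, e :=
        Finset.sum_le_sum fun i _ => by simpa using Nat.lt_succ_iff.1 (α i).2
    _ = d * e := by simp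

theorem ham_sandwich {d e M : ℕ} (hM : M < (e + 1) ^ d) {ι : Type*} (s : ℕ → Finset ι)
    (x : ι → Fin d → ℝ) :
    ∃ g : MvPolynomial (Fin d) ℝ, g ≠ 0 ∧ g.totalDegree ≤ d * e ∧ ∀ k < M,
      2 * ((s k).filter fun i => 0 < MvPolynomial.eval (x i) g).card ≤ (s k).card ∧
      2 * ((s k).filter fun i => MvPolynomial.eval (x i) g < 0).card ≤ (s k).card := by
  classical
  let X := (Fin d → Fin (e + 1)) → ℝ
  let ev : ι → X → ℝ := fun i c => ∑ α, c α * ∏ j, x i j ^ (α j : ℕ)
  have hev : ∀ i, Continuous (ev i) := fun i => by fun_prop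
  have hneg : ∀ i c, ev i (-c) = -ev i c := fun i c => by simp [ev, X]
  let sg : ZMod 2 → ℝ := fun a => if a = 0 then 1 else -1
  have hsg : ∀ a, sg (a + 1) = -sg a := by
    intro a
    have h2 : ∀ b : ZMod 2, b + 1 = 0 ↔ ¬ b = 0 := by decide
    by_cases h : a = 0
    · simp [sg, h]
    · simp [sg, h, h2]
  let O : Fin M → ZMod 2 → Set X := fun k a =>
    {c | (s k).card < 2 * ((s k).filter fun i => 0 < sg a * ev i c).card}
  suffices hs : ∃ c : X, c ≠ 0 ∧ ∀ k a, c ∉ O k a by
    obtain ⟨c, hc0, hc⟩ := hs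
    refine ⟨boxPoly c, boxPoly_ne hc0, boxPoly_deg c, fun k hk => ⟨?_, ?_⟩⟩
    · have := hc ⟨k, hk⟩ 0
      simpa [O, sg, ev, boxPoly_eval] using this
    · have := hc ⟨k, hk⟩ 1
      simpa [O, sg, ev, boxPoly_eval] using this
  refine Pool.Agent.MP_8bdec9_gt.zp_cover (X := X) 2 le_rfl
    (-ContinuousLinearMap.id ℝ X) (fun c => by simp [X]) (ι := Fin M)
    (by simpa [X] using hM) O ?_ ?_ ?_
  · intro k a
    rw [isOpen_iff_mem_nhds]
    intro c hc
    have : ∀ᶠ c' in nhds c, ∀ i ∈ (s k).filter fun i => 0 < sg a * ev i c, 0 < sg a * ev i c' := by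
      rw [Filter.eventually_all_finset]
      intro i hi
      exact (isOpen_lt continuous_const (continuous_const.mul (hev i))).mem_nhds
        (Finset.mem_filter.1 hi).2
    filter_upwards [this] with c' hc'
    refine lt_of_lt_of_le hc (Nat.mul_le_mul_left 2 (Finset.card_le_card fun i hi => ?_))
    exact Finset.mem_filter.2 ⟨(Finset.mem_filter.1 hi).1, hc' i hi⟩
  · intro k a c hc
    simpa [O, hsg, hneg] using hc
  · intro k a a' c h1 h2
    by_contra hne
    have ha : a' = a + 1 := (by decide : ∀ a a' : ZMod 2, ¬ a = a' → a' = a + 1) a a' hne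
    subst ha
    simp only [O, Set.mem_ofPred_eq, hsg] at h1 h2
    have hd : Disjoint ((s k).filter fun i => 0 < sg a * ev i c)
        ((s k).filter fun i => 0 < -sg a * ev i c) := by
      rw [Finset.disjoint_filter]
      intro i _ h h'
      linarith
    have := Finset.card_le_card (Finset.union_subset (Finset.filter_subset _ _)
      (Finset.filter_subset _ _) : ((s k).filter fun i => 0 < sg a * ev i c) ∪
        ((s k).filter fun i => 0 < -sg a * ev i c) ⊆ s k)
    rw [Finset.card_union_of_disjoint hd] at this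
    omega

/-- The cell label is constant along arcs that avoid the zero set. -/
def LocConst {d : ℕ} (F : MvPolynomial (Fin d) ℝ) (c : (Fin d → ℝ) → ℕ) : Prop :=
  ∀ γ : ℝ → Fin d → ℝ, Continuous γ → ∀ a b : ℝ, a ≤ b →
    (∀ t, a ≤ t → t ≤ b → MvPolynomial.eval (γ t) F ≠ 0) → c (γ a) = c (γ b)

lemma partition_aux {d : ℕ} (hd : 0 < d) {ι : Type*} (s : Finset ι) (x : ι → Fin d → ℝ) (j : ℕ) :
    ∃ (F : MvPolynomial (Fin d) ℝ) (c : (Fin d → ℝ) → ℕ), F ≠ 0 ∧
      F.totalDegree ≤ ∑ k ∈ range j, d * 2 ^ (k / d + 1) ∧ (∀ y, c y < 2 ^ j) ∧ LocConst F c ∧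
      ∀ k, (s.filter fun i => MvPolynomial.eval (x i) F ≠ 0 ∧ c (x i) = k).card * 2 ^ j ≤ s.card := by
  classical
  induction j with
  | zero =>
    refine ⟨1, fun _ => 0, one_ne_zero, by simp, by simp, fun _ _ _ _ _ _ => rfl, fun k => ?_⟩
    rw [pow_zero, mul_one]
    exact Finset.card_filter_le _ _
  | succ j ih =>
    obtain ⟨F, c, hF, hdeg, hc, hloc, hcell⟩ := ih
    have hM : 2 ^ j < (2 ^ (j / d + 1) - 1 + 1) ^ d := by
      rw [Nat.sub_add_cancel Nat.one_le_two_pow, ← pow_mul]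
      refine Nat.pow_lt_pow_right (by norm_num) ?_
      rw [mul_comm]
      exact Nat.lt_mul_div_succ j hd
    obtain ⟨g, hg, hgd, hb⟩ := ham_sandwich hM
      (fun k => s.filter fun i => MvPolynomial.eval (x i) F ≠ 0 ∧ c (x i) = k) x
    refine ⟨F * g, fun y => 2 * c y + if 0 < MvPolynomial.eval y g then 1 else 0,
      mul_ne_zero hF hg, ?_, ?_, ?_, ?_⟩
    · rw [Finset.sum_range_succ]
      refine (MvPolynomial.totalDegree_mul _ _).trans (add_le_add hdeg (hgd.trans ?_))
      exact Nat.mul_le_mul_left _ (Nat.sub_le _ _)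
    · intro y
      have := hc y
      dsimp only
      split_ifs <;> omega
    · intro γ hγ a b hab h
      have h1 : c (γ a) = c (γ b) := hloc γ hγ a b hab fun t h1 h2 h0 =>
        h t h1 h2 (by simp [h0])
      have h2 : ∀ t, a ≤ t → t ≤ b → MvPolynomial.eval (γ t) g ≠ 0 := fun t h1 h2 h0 =>
        h t h1 h2 (by simp [h0])
      have hcont : ContinuousOn (fun t => MvPolynomial.eval (γ t) g) (Set.Icc a b) :=
        ((MvPolynomial.continuous_eval g).comp hγ).continuousOn
      have h3 : 0 < MvPolynomial.eval (γ a) g ↔ 0 < MvPolynomial.eval (γ b) g := by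
        constructor
        · intro ha
          by_contra hb'
          obtain ⟨t, ht, ht0⟩ := intermediate_value_Icc' hab hcont ⟨not_lt.1 hb', ha.le⟩
          exact h2 t ht.1 ht.2 ht0
        · intro hb'
          by_contra ha
          obtain ⟨t, ht, ht0⟩ := intermediate_value_Icc hab hcont ⟨not_lt.1 ha, hb'.le⟩
          exact h2 t ht.1 ht.2 ht0
      simp only [h1, h3]
    · intro k
      by_cases hk : k / 2 < 2 ^ j
      · obtain ⟨hp, hn⟩ := hb (k / 2) hk
        have h0 := hcell (k / 2)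
        have key : 2 * (s.filter fun i => MvPolynomial.eval (x i) (F * g) ≠ 0 ∧
            (2 * c (x i) + if 0 < MvPolynomial.eval (x i) g then 1 else 0) = k).card ≤
            (s.filter fun i => MvPolynomial.eval (x i) F ≠ 0 ∧ c (x i) = k / 2).card := by
          by_cases hk2 : k % 2 = 1
          · refine le_trans (Nat.mul_le_mul_left 2 (Finset.card_le_card fun i hi => ?_)) hp
            simp only [Finset.mem_filter, map_mul, ne_eq, mul_eq_zero, not_or] at hi ⊢
            obtain ⟨h1, ⟨h2, h3⟩, h4⟩ := hi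
            split_ifs at h4 with h5
            · exact ⟨⟨h1, h2, by omega⟩, h5⟩
            · omega
          · refine le_trans (Nat.mul_le_mul_left 2 (Finset.card_le_card fun i hi => ?_)) hn
            simp only [Finset.mem_filter, map_mul, ne_eq, mul_eq_zero, not_or] at hi ⊢
            obtain ⟨h1, ⟨h2, h3⟩, h4⟩ := hi
            split_ifs at h4 with h5
            · omega
            · exact ⟨⟨h1, h2, by omega⟩, lt_of_le_of_ne (not_lt.1 h5) h3⟩
        calc _ = (2 * (s.filter fun i => MvPolynomial.eval (x i) (F * g) ≠ 0 ∧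
            (2 * c (x i) + if 0 < MvPolynomial.eval (x i) g then 1 else 0) = k).card) * 2 ^ j := by
              ring
          _ ≤ _ := (Nat.mul_le_mul_right _ key).trans h0
      · rw [Finset.filter_false_of_mem]
        · simp
        · rintro i _ ⟨_, h⟩
          have := hc (x i)
          dsimp only at h
          split_ifs at h <;> omega

lemma deg_sum {d : ℕ} (hd : 0 < d) (J : ℕ) :
    ∑ k ∈ range (d * J), d * 2 ^ (k / d + 1) + 2 * d * d = 2 * d * d * 2 ^ J := by
  induction J with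
  | zero => simp
  | succ J ih =>
    rw [Nat.mul_succ, Finset.sum_range_add]
    have : ∑ k ∈ range d, d * 2 ^ ((d * J + k) / d + 1) = d * (d * 2 ^ (J + 1)) := by
      rw [Finset.sum_congr rfl (g := fun _ => d * 2 ^ (J + 1))]
      · simp
      · intro k hk
        rw [Nat.mul_add_div hd, Nat.div_eq_of_lt (Finset.mem_range.1 hk)]
    rw [this, add_right_comm, ih]
    ring

/-- Polynomial partitioning. -/
theorem partition {d : ℕ} (hd : 0 < d) {ι : Type*} (s : Finset ι) (x : ι → Fin d → ℝ) (J : ℕ) :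
    ∃ (F : MvPolynomial (Fin d) ℝ) (c : (Fin d → ℝ) → ℕ), F ≠ 0 ∧
      F.totalDegree + 1 ≤ 2 * d * d * 2 ^ J ∧ (∀ y, c y < 2 ^ (d * J)) ∧ LocConst F c ∧
      ∀ k, (s.filter fun i => MvPolynomial.eval (x i) F ≠ 0 ∧ c (x i) = k).card * 2 ^ (d * J) ≤
        s.card := by
  obtain ⟨F, c, hF, hdeg, hc, hloc, hcell⟩ := partition_aux hd s x (d * J)
  refine ⟨F, c, hF, ?_, hc, hloc, hcell⟩
  rw [← deg_sum hd J]
  have : 0 < 2 * d * d := by positivity
  omega

/-- Along a curve on which `F` is given by a nonzero polynomial, parameters with the same index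
lie in the same cell, together with the arc between them. -/
lemma LocConst.of_idx {d : ℕ} {F : MvPolynomial (Fin d) ℝ} {c : (Fin d → ℝ) → ℕ}
    (h : LocConst F c) {γ : ℝ → Fin d → ℝ} (hγ : Continuous γ) {H : Polynomial ℝ} (hH : H ≠ 0)
    (hFH : ∀ t, H.eval t = 0 ↔ MvPolynomial.eval (γ t) F = 0) {a b : ℝ} (hb : H.eval b ≠ 0)
    (hi : idx H a = idx H b) {u : ℝ} (hau : a ≤ u) (hub : u ≤ b) :
    MvPolynomial.eval (γ u) F ≠ 0 ∧ c (γ a) = c (γ u) :=
  ⟨fun h0 => no_root_between hH hb hi hau hub ((hFH u).2 h0),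
    h γ hγ a u hau fun t h1 h2 h0 => no_root_between hH hb hi h1 (h2.trans hub) ((hFH t).2 h0)⟩

/-- A line meets at most `D + 1` cells. -/
lemma LocConst.line_cells {d : ℕ} {F : MvPolynomial (Fin d) ℝ} {c : (Fin d → ℝ) → ℕ}
    (h : LocConst F c) (a e : Fin d → ℝ) (K : Finset ℕ)
    (hK : ∀ k ∈ K, ∃ t : ℝ, MvPolynomial.eval (fun i => a i + t * e i) F ≠ 0 ∧
      c (fun i => a i + t * e i) = k) : K.card ≤ F.totalDegree + 1 := by
  classical
  obtain ⟨H, hHd, hH⟩ := exists_line_poly a e F le_rfl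
  choose! τ hτ using hK
  have hγ : Continuous fun t : ℝ => fun i => a i + t * e i := by fun_prop
  have key : ∀ k ∈ K, ∀ k' ∈ K, idx H (τ k) = idx H (τ k') → τ k ≤ τ k' → k = k' := by
    intro k hk k' hk' hi hle
    have hb : H.eval (τ k') ≠ 0 := by rw [hH]; exact (hτ k' hk').1
    have hH0 : H ≠ 0 := by rintro rfl; simp at hb
    have := (h.of_idx hγ hH0 (fun t => by rw [hH]) hb hi hle le_rfl).2
    rw [← (hτ k hk).2, ← (hτ k' hk').2]
    exact this
  rw [← Finset.card_range (F.totalDegree + 1)]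
  refine Finset.card_le_card_of_injOn (fun k => idx H (τ k)) (fun k _ => ?_) ?_
  · simpa using Nat.lt_succ_of_le ((idx_le H _).trans hHd)
  · intro k hk k' hk' hi
    rcases le_total (τ k) (τ k') with hle | hle
    · exact key k hk k' hk' hi hle
    · exact (key k' hk' k hk hi.symm hle).symm

end Pool.Agent.MP_6c3157_co

end MrgPart1

-- ======== part 2: formerly Pool.Agent.MP_6c3157_co.Bezout
section MrgPart2

/-!
Two surfaces without a common component share boundedly many lines.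
-/

set_option maxSynthPendingDepth 3

namespace Pool.Agent.MP_6c3157_co

open Finset

/-- A non-horizontal line in three-space, given by four parameters. -/
abbrev Ln := Fin 4 → ℝ

/-- The point of the line at height `z`. -/
def pt (l : Ln) (z : ℝ) : Fin 3 → ℝ := ![l 0 + z * l 2, l 1 + z * l 3, z]

/-- The line lies in the zero set of `f`. -/
def Sub (l : Ln) (f : MvPolynomial (Fin 3) ℝ) : Prop := ∀ z, MvPolynomial.eval (pt l z) f = 0

lemma pt_eq (l : Ln) (z : ℝ) :
    pt l z = fun i => (![l 0, l 1, 0] : Fin 3 → ℝ) i + z * (![l 2, l 3, 1] : Fin 3 → ℝ) i := by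
  funext i; fin_cases i <;> simp [pt]

lemma pt_eq_iff {l m : Ln} {z w : ℝ} :
    pt l z = pt m w ↔ z = w ∧ l 0 + z * l 2 = m 0 + z * m 2 ∧ l 1 + z * l 3 = m 1 + z * m 3 := by
  constructor
  · intro h
    have h0 := congrFun h 0
    have h1 := congrFun h 1
    have h2 := congrFun h 2
    simp [pt] at h0 h1 h2
    subst h2
    exact ⟨rfl, h0, h1⟩
  · rintro ⟨rfl, h0, h1⟩
    simp [pt, h0, h1]

/-- Two lines through two distinct common points coincide. -/
lemma ln_eq_of_two {l m : Ln} {z w : ℝ} (hzw : z ≠ w) (h1 : pt l z = pt m z)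
    (h2 : pt l w = pt m w) : l = m := by
  obtain ⟨-, a1, a2⟩ := pt_eq_iff.1 h1
  obtain ⟨-, b1, b2⟩ := pt_eq_iff.1 h2
  have hz : z - w ≠ 0 := sub_ne_zero.2 hzw
  have e2 : l 2 = m 2 := by
    have : (z - w) * (l 2 - m 2) = 0 := by linarith
    rcases mul_eq_zero.1 this with h | h
    · exact absurd h hz
    · linarith
  have e3 : l 3 = m 3 := by
    have : (z - w) * (l 3 - m 3) = 0 := by linarith
    rcases mul_eq_zero.1 this with h | h
    · exact absurd h hz
    · linarith
  funext i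
  fin_cases i
  · simp only [Fin.zero_eta]; rw [e2] at a1; linarith
  · simp only [Fin.mk_one]; rw [e3] at a2; linarith
  · exact e2
  · exact e3

/-- A line not contained in a surface meets it in at most `D` points. -/
lemma exists_roots {l : Ln} {f : MvPolynomial (Fin 3) ℝ} {D : ℕ} (hf : f.totalDegree ≤ D)
    (h : ¬ Sub l f) : ∃ T : Finset ℝ, T.card ≤ D ∧
      ∀ z, MvPolynomial.eval (pt l z) f = 0 → z ∈ T := by
  obtain ⟨H, hHd, hH⟩ := exists_line_poly ![l 0, l 1, 0] ![l 2, l 3, 1] f hf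
  have hH0 : H ≠ 0 := by
    rintro rfl
    exact h fun z => by rw [pt_eq, ← hH]; simp
  refine ⟨H.roots.toFinset, (Multiset.toFinset_card_le _).trans (H.card_roots'.trans hHd),
    fun z hz => ?_⟩
  rw [pt_eq, ← hH] at hz
  simp [hH0, hz]

lemma det_totalDegree {σ n : Type*} [Fintype n] [DecidableEq n]
    (M : Matrix n n (MvPolynomial σ ℝ)) {D : ℕ} (h : ∀ i j, (M i j).totalDegree ≤ D) :
    M.det.totalDegree ≤ Fintype.card n * D := by
  rw [Matrix.det_apply']
  refine (MvPolynomial.totalDegree_finsetSum _ _).trans (Finset.sup_le fun π _ => ?_)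
  refine (MvPolynomial.totalDegree_mul _ _).trans ?_
  have : ((Equiv.Perm.sign π : ℤ) : MvPolynomial σ ℝ).totalDegree = 0 := by
    rw [← map_intCast (MvPolynomial.C : ℝ →+* MvPolynomial σ ℝ), MvPolynomial.totalDegree_C]
  rw [this, zero_add]
  refine (MvPolynomial.totalDegree_finsetProd _ _).trans ?_
  calc ∑ i, (M (π i) i).totalDegree ≤ ∑ _i : n, D := Finset.sum_le_sum fun i _ => h _ _
    _ = _ := by simp

lemma coeff_totalDegree {n : ℕ} (f : MvPolynomial (Fin (n + 1)) ℝ) (i : ℕ) :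
    ((MvPolynomial.finSuccEquiv ℝ n f).coeff i).totalDegree ≤ f.totalDegree := by
  by_cases h : (MvPolynomial.finSuccEquiv ℝ n f).coeff i = 0
  · simp [h]
  · exact le_trans (Nat.le_add_right _ _) (MvPolynomial.totalDegree_coeff_finSuccEquiv_add_le f i h)

/-- Elimination of the first variable. -/
lemma elim {n : ℕ} {f g : MvPolynomial (Fin (n + 1)) ℝ} (hf : Irreducible f) (hfg : ¬ f ∣ g)
    {D : ℕ} (hfD : f.totalDegree ≤ D) (hgD : g.totalDegree ≤ D) :
    ∃ R : MvPolynomial (Fin n) ℝ, R ≠ 0 ∧ R.totalDegree ≤ 2 * D * D + D ∧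
      ∀ (a : ℝ) (y : Fin n → ℝ), MvPolynomial.eval (Fin.cons a y) f = 0 →
        MvPolynomial.eval (Fin.cons a y) g = 0 → MvPolynomial.eval y R = 0 := by
  classical
  set F := MvPolynomial.finSuccEquiv ℝ n f with hF
  set G := MvPolynomial.finSuccEquiv ℝ n g with hG
  have hFi : Irreducible F := (MulEquiv.irreducible_iff (MvPolynomial.finSuccEquiv ℝ n)).2 hf
  have hFG : ¬ F ∣ G := fun h => hfg ((map_dvd_iff (MvPolynomial.finSuccEquiv ℝ n)).1 h)
  by_cases h0 : F.natDegree = 0
  · refine ⟨F.coeff 0, ?_, (coeff_totalDegree f 0).trans (by omega), fun a y h1 _ => ?_⟩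
    · intro h
      apply hFi.ne_zero
      rw [Polynomial.eq_C_of_natDegree_eq_zero h0, h, map_zero]
    · rw [MvPolynomial.eval_eq_eval_mv_eval', ← hF, Polynomial.eq_C_of_natDegree_eq_zero h0] at h1
      simpa using h1
  · have hFd : F.natDegree ≤ D := by
      rw [hF, MvPolynomial.natDegree_finSuccEquiv]
      exact (MvPolynomial.degreeOf_le_totalDegree _ _).trans hfD
    have hGd : G.natDegree ≤ D := by
      rw [hG, MvPolynomial.natDegree_finSuccEquiv]
      exact (MvPolynomial.degreeOf_le_totalDegree _ _).trans hgD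
    refine ⟨Polynomial.resultant F G, ?_, ?_, fun a y h1 h2 => ?_⟩
    · let K := FractionRing (MvPolynomial (Fin n) ℝ)
      have hinj : Function.Injective (algebraMap (MvPolynomial (Fin n) ℝ) K) :=
        IsFractionRing.injective _ _
      have hp : F.IsPrimitive := hFi.isPrimitive h0
      have h1 : Irreducible (F.map (algebraMap _ K)) :=
        hp.irreducible_iff_irreducible_map_fraction_map.1 hFi
      have h2 : ¬ F.map (algebraMap _ K) ∣ G.map (algebraMap _ K) := fun h =>
        hFG (hp.dvd_of_fraction_map_dvd_fraction_map h)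
      have h3 := Polynomial.resultant_ne_zero _ _ (h1.coprime_iff_not_dvd.2 h2)
      rw [Polynomial.natDegree_map_eq_of_injective hinj,
        Polynomial.natDegree_map_eq_of_injective hinj, Polynomial.resultant_map_map] at h3
      intro h
      rw [h, map_zero] at h3
      exact h3 rfl
    · have := det_totalDegree (Polynomial.sylvester F G F.natDegree G.natDegree) (D := D) ?_
      · refine le_trans this ?_
        rw [Fintype.card_fin]
        nlinarith
      · intro i j
        induction j using Fin.addCases with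
        | left j =>
          simp only [Polynomial.sylvester, Matrix.of_apply, Fin.addCases_left]
          split_ifs
          · exact (coeff_totalDegree g _).trans hgD
          · simp
        | right j =>
          simp only [Polynomial.sylvester, Matrix.of_apply, Fin.addCases_right]
          split_ifs
          · exact (coeff_totalDegree f _).trans hfD
          · simp
    · obtain ⟨p, q, -, -, e⟩ := Polynomial.exists_mul_add_mul_eq_C_resultant F G le_rfl le_rfl
        (Or.inl h0)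
      rw [MvPolynomial.eval_eq_eval_mv_eval', ← hF] at h1
      rw [MvPolynomial.eval_eq_eval_mv_eval', ← hG] at h2
      have := congrArg (fun P => Polynomial.eval a (P.map (MvPolynomial.eval y))) e
      simpa [h1, h2] using this.symm

/-- A plane curve contains few lines. -/
lemma plane_lines {R : MvPolynomial (Fin 2) ℝ} (hR : R ≠ 0) (S : Finset (ℝ × ℝ))
    (hS : ∀ p ∈ S, ∀ z, MvPolynomial.eval ![p.1 + z * p.2, z] R = 0) :
    S.card ≤ R.totalDegree := by
  classical
  let f : Option ((ℝ × ℝ) × (ℝ × ℝ)) → MvPolynomial (Fin 2) ℝ := fun o =>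
    match o with
    | none => R
    | some p => MvPolynomial.C (p.1.1 - p.2.1) + MvPolynomial.X 1 * MvPolynomial.C (p.1.2 - p.2.2)
  obtain ⟨y, hy⟩ := exists_avoid (insertNone S.offDiag) f (by
    intro o ho
    cases o with
    | none => exact exists_eval_ne hR
    | some p =>
      have hne : p.1 ≠ p.2 := (Finset.mem_offDiag.1 (by simpa using ho)).2.2
      by_cases h : p.1.1 = p.2.1
      · refine ⟨![0, 1], ?_⟩
        have : p.1.2 ≠ p.2.2 := fun h' => hne (Prod.ext h h')
        simpa [f, h, sub_eq_zero] using this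
      · exact ⟨![0, 0], by simpa [f, sub_eq_zero] using h⟩)
  obtain ⟨H, hHd, hH⟩ := exists_line_poly ![0, y 1] ![1, 0] R le_rfl
  have hH' : ∀ t, H.eval t = MvPolynomial.eval ![t, y 1] R := by
    intro t
    rw [hH]
    congr 2
    funext i; fin_cases i <;> simp
  have hH0 : H ≠ 0 := by
    rintro rfl
    have h1 := hy none (by simp)
    have h2 := hH' (y 0)
    have : ![y 0, y 1] = y := by funext i; fin_cases i <;> simp
    rw [this] at h2
    exact h1 (by simpa [f] using h2.symm)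
  have hinj : Set.InjOn (fun p : ℝ × ℝ => p.1 + y 1 * p.2) S := by
    intro p hp q hq h
    by_contra hne
    have := hy (some (p, q)) (by simpa using ⟨hp, hq, hne⟩)
    apply this
    simp only [f, map_add, map_mul, MvPolynomial.eval_C, MvPolynomial.eval_X]
    dsimp only at h
    linarith
  rw [← Finset.card_image_of_injOn hinj]
  refine (card_le_of_roots hH0 _ fun t ht => ?_).trans hHd
  obtain ⟨p, hp, rfl⟩ := Finset.mem_image.1 ht
  rw [hH']
  exact hS p hp _

/-- The constant in the Bezout bound. -/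
def bz (D : ℕ) : ℕ := (2 * D * D + D) ^ 2

theorem bezout {f g : MvPolynomial (Fin 3) ℝ} (hf : Irreducible f) (hfg : ¬ f ∣ g)
    {D : ℕ} (hfD : f.totalDegree ≤ D) (hgD : g.totalDegree ≤ D) (S : Finset Ln)
    (hS : ∀ l ∈ S, Sub l f ∧ Sub l g) : S.card ≤ bz D := by
  classical
  obtain ⟨R, hR, hRd, hRe⟩ := elim hf hfg hfD hgD
  let e := MvPolynomial.renameEquiv ℝ (Equiv.swap (0 : Fin 3) 1)
  have hdeg : ∀ p : MvPolynomial (Fin 3) ℝ, (e p).totalDegree ≤ p.totalDegree := fun p =>
    MvPolynomial.totalDegree_rename_le _ _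
  obtain ⟨R', hR', hRd', hRe'⟩ := elim (f := e f) (g := e g) ((MulEquiv.irreducible_iff e).2 hf)
    (fun h => hfg ((map_dvd_iff e).1 h)) ((hdeg f).trans hfD) ((hdeg g).trans hgD)
  have h1 : (S.image fun l => (l 1, l 3)).card ≤ 2 * D * D + D := by
    refine (plane_lines hR _ fun p hp z => ?_).trans hRd
    obtain ⟨l, hl, rfl⟩ := Finset.mem_image.1 hp
    exact hRe (l 0 + z * l 2) _ ((hS l hl).1 z) ((hS l hl).2 z)
  have h2 : (S.image fun l => (l 0, l 2)).card ≤ 2 * D * D + D := by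
    refine (plane_lines hR' _ fun p hp z => ?_).trans hRd'
    obtain ⟨l, hl, rfl⟩ := Finset.mem_image.1 hp
    have key : ∀ p : MvPolynomial (Fin 3) ℝ,
        MvPolynomial.eval (Fin.cons (l 1 + z * l 3) ![l 0 + z * l 2, z]) (e p) =
          MvPolynomial.eval (pt l z) p := by
      intro p
      simp only [e, MvPolynomial.renameEquiv_apply, MvPolynomial.eval_rename]
      congr 2
      funext i
      fin_cases i
      · simp [pt]
      · simp [pt]
      · have : Equiv.swap (0 : Fin 3) 1 2 = 2 := by decide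
        simp [pt, this]
    exact hRe' (l 1 + z * l 3) _ ((key f).trans ((hS l hl).1 z)) ((key g).trans ((hS l hl).2 z))
  calc S.card ≤ ((S.image fun l => (l 1, l 3)) ×ˢ (S.image fun l => (l 0, l 2))).card := by
        refine Finset.card_le_card_of_injOn (fun l => ((l 1, l 3), (l 0, l 2))) ?_ ?_
        · intro l hl
          simp only [Finset.coe_product, Set.mem_prod, Finset.mem_coe]
          exact ⟨Finset.mem_image_of_mem _ hl, Finset.mem_image_of_mem _ hl⟩
        · intro l _ m _ h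
          simp only [Prod.mk.injEq] at h
          funext i
          fin_cases i
          · exact h.2.1
          · exact h.1.1
          · exact h.2.2
          · exact h.1.2
    _ ≤ bz D := by
        rw [Finset.card_product, bz, sq]
        exact Nat.mul_le_mul h1 h2

end Pool.Agent.MP_6c3157_co

end MrgPart2

-- ======== part 3: formerly Pool.Agent.MP_6c3157_co.Lines
section MrgPart3

/-!
Intersecting pairs of lines in three-space, away from heavy points and heavy surfaces.
-/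

set_option maxSynthPendingDepth 3

namespace Pool.Agent.MP_6c3157_co

open Finset
open scoped Classical

/-- The lines of `L` through a point. -/
noncomputable def thru (L : Finset Ln) (x : Fin 3 → ℝ) : Finset Ln :=
  L.filter fun m => pt m (x 2) = x

/-- The lines of `L` in a surface. -/
noncomputable def inS (L : Finset Ln) (f : MvPolynomial (Fin 3) ℝ) : Finset Ln :=
  L.filter fun m => Sub m f

/-- A pair of distinct lines meeting at a light point and lying in no heavy surface. -/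
def Light (D : ℕ) (A : ℝ) (L : Finset Ln) (p : Ln × Ln) : Prop :=
  p.1 ≠ p.2 ∧ (∃ z, pt p.1 z = pt p.2 z ∧ ((thru L (pt p.1 z)).card : ℝ) ^ 2 < A * L.card) ∧
    ∀ f : MvPolynomial (Fin 3) ℝ, Irreducible f → f.totalDegree ≤ D → Sub p.1 f → Sub p.2 f →
      ((inS L f).card : ℝ) ^ 2 < A * L.card

noncomputable def light (D : ℕ) (A : ℝ) (L : Finset Ln) : Finset (Ln × Ln) :=
  (L ×ˢ L).filter (Light D A L)

@[simp] lemma pt_two (l : Ln) (z : ℝ) : pt l z 2 = z := rfl

lemma mem_thru {L : Finset Ln} {l m : Ln} {z : ℝ} :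
    m ∈ thru L (pt l z) ↔ m ∈ L ∧ pt m z = pt l z := by simp [thru]

lemma Sub.of_dvd {l : Ln} {f g : MvPolynomial (Fin 3) ℝ} (h : Sub l f) (hfg : f ∣ g) :
    Sub l g := by
  obtain ⟨u, rfl⟩ := hfg
  intro z
  rw [map_mul, h z, zero_mul]

lemma thru_inter (L : Finset Ln) {x y : Fin 3 → ℝ} (h : thru L x ≠ thru L y) (W : Finset Ln)
    (hW : ∀ a ∈ W, a ∈ thru L x ∧ a ∈ thru L y) : W.card ≤ 1 := by
  rw [Finset.card_le_one]
  intro l hl m hm
  replace hl := hW l hl
  replace hm := hW m hm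
  simp only [thru, Finset.mem_filter] at hl hm
  by_cases h2 : x 2 = y 2
  · exact absurd (by rw [← hl.1.2, ← hl.2.2, h2]) h
  · exact ln_eq_of_two h2 (hl.1.2.trans hm.1.2.symm) (hl.2.2.trans hm.2.2.symm)

lemma inS_inter (L : Finset Ln) {D : ℕ} {f g : MvPolynomial (Fin 3) ℝ} (hf : Irreducible f)
    (hg : Irreducible g) (hfD : f.totalDegree ≤ D) (hgD : g.totalDegree ≤ D)
    (h : inS L f ≠ inS L g) (W : Finset Ln) (hW : ∀ a ∈ W, a ∈ inS L f ∧ a ∈ inS L g) :
    W.card ≤ bz D := by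
  refine bezout hf (fun hd => h ?_) hfD hgD _ fun l hl => ?_
  · exact Finset.filter_congr fun l _ =>
      ⟨fun h => h.of_dvd hd, fun h => h.of_dvd (hf.dvd_symm hg hd)⟩
  · replace hl := hW l hl
    simp only [inS, Finset.mem_filter] at hl
    exact ⟨hl.1.2, hl.2.2⟩

lemma transversal_part {ι : Type*} (L : Finset Ln) (G : Finset ι) (u v : ι → Ln) (z : ι → ℝ)
    (hinj : ∀ i ∈ G, ∀ j ∈ G, u i = u j → v i = v j → i = j) (r : ℝ) (hr : 0 ≤ r)
    {f : MvPolynomial (Fin 3) ℝ} {D : ℕ} (hf : f.totalDegree ≤ D)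
    (h : ∀ i ∈ G, u i ∈ L ∧ v i ∈ L ∧ pt (v i) (z i) = pt (u i) (z i) ∧
      ((thru L (pt (u i) (z i))).card : ℝ) ≤ r ∧ ¬ Sub (u i) f ∧
      MvPolynomial.eval (pt (u i) (z i)) f = 0) : (G.card : ℝ) ≤ L.card * (D * r) := by
  refine card_le_fib G u L (fun i hi => (h i hi).1) _ fun l _ W hW hl => ?_
  rcases W.eq_empty_or_nonempty with rfl | ⟨i1, hi1⟩
  · simp only [Finset.card_empty, Nat.cast_zero]; positivity
  obtain ⟨T, hT, hTr⟩ := exists_roots hf (hl i1 hi1 ▸ (h i1 (hW hi1)).2.2.2.2.1 : ¬ Sub l f)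
  refine (card_le_fib _ z T (fun i hi => ?_) r fun t _ V hV ht => ?_).trans (by gcongr)
  · exact hTr _ (hl i hi ▸ (h i (hW hi)).2.2.2.2.2)
  · rcases V.eq_empty_or_nonempty with rfl | ⟨i0, hi0⟩
    · simpa using hr
    refine le_trans ?_ (h i0 (hW (hV hi0))).2.2.2.1
    refine Nat.cast_le.2 (Finset.card_le_card_of_injOn v (fun i hi => ?_) ?_)
    · rw [Finset.mem_coe, mem_thru, ht i0 hi0, hl i0 (hV hi0), ← ht i hi, ← hl i (hV hi)]
      exact ⟨(h i (hW (hV hi))).2.1, (h i (hW (hV hi))).2.2.1⟩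
    · intro i hi j hj e
      exact hinj i (hW (hV hi)) j (hW (hV hj)) ((hl i (hV hi)).trans (hl j (hV hj)).symm) e

lemma irr_part {D : ℕ} {A : ℝ} (hA : 0 ≤ A) (L : Finset Ln) (z : Ln × Ln → ℝ)
    (hz : ∀ p ∈ light D A L, pt p.1 (z p) = pt p.2 (z p) ∧
      ((thru L (pt p.1 (z p))).card : ℝ) ^ 2 < A * L.card)
    {f : MvPolynomial (Fin 3) ℝ} (hf : Irreducible f) (hfD : f.totalDegree ≤ D) :
    (((light D A L).filter fun p => MvPolynomial.eval (pt p.1 (z p)) f = 0).card : ℝ) ≤
      A * L.card + 2 * (L.card * (D * Real.sqrt (A * L.card))) := by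
  set G := (light D A L).filter fun p => MvPolynomial.eval (pt p.1 (z p)) f = 0 with hG
  have hmem : ∀ p ∈ G, p.1 ∈ L ∧ p.2 ∈ L ∧ Light D A L p ∧ pt p.1 (z p) = pt p.2 (z p) ∧
      ((thru L (pt p.1 (z p))).card : ℝ) ≤ Real.sqrt (A * L.card) ∧
      MvPolynomial.eval (pt p.1 (z p)) f = 0 := by
    intro p hp
    obtain ⟨h1, h2⟩ := Finset.mem_filter.1 hp
    obtain ⟨h3, h4⟩ := Finset.mem_filter.1 h1
    exact ⟨(Finset.mem_product.1 h3).1, (Finset.mem_product.1 h3).2, h4, (hz p h1).1,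
      Real.le_sqrt_of_sq_le (hz p h1).2.le, h2⟩
  have h1 : ((G.filter fun p => Sub p.1 f ∧ Sub p.2 f).card : ℝ) ≤ A * L.card := by
    rcases (G.filter fun p => Sub p.1 f ∧ Sub p.2 f).eq_empty_or_nonempty with h0 | ⟨p, hp⟩
    · rw [h0]; simp only [Finset.card_empty, Nat.cast_zero]; positivity
    obtain ⟨hp, hs⟩ := Finset.mem_filter.1 hp
    refine le_trans ?_ ((hmem p hp).2.2.1.2.2 f hf hfD hs.1 hs.2).le
    rw [sq, ← Nat.cast_mul, ← Finset.card_product]
    refine Nat.cast_le.2 (Finset.card_le_card fun q hq => ?_)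
    obtain ⟨hq, hs⟩ := Finset.mem_filter.1 hq
    exact Finset.mem_product.2 ⟨Finset.mem_filter.2 ⟨(hmem q hq).1, hs.1⟩,
      Finset.mem_filter.2 ⟨(hmem q hq).2.1, hs.2⟩⟩
  have h2 : ((G.filter fun p => ¬ Sub p.1 f).card : ℝ) ≤
      L.card * (D * Real.sqrt (A * L.card)) := by
    refine transversal_part L _ Prod.fst Prod.snd z (fun i _ j _ h1 h2 => Prod.ext h1 h2) _
      (Real.sqrt_nonneg _) hfD fun p hp => ?_
    obtain ⟨hp, hs⟩ := Finset.mem_filter.1 hp
    obtain ⟨a1, a2, -, a4, a5, a6⟩ := hmem p hp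
    exact ⟨a1, a2, a4.symm, a5, hs, a6⟩
  have h3 : ((G.filter fun p => ¬ Sub p.2 f).card : ℝ) ≤
      L.card * (D * Real.sqrt (A * L.card)) := by
    refine transversal_part L _ Prod.snd Prod.fst z (fun i _ j _ h1 h2 => Prod.ext h2 h1) _
      (Real.sqrt_nonneg _) hfD fun p hp => ?_
    obtain ⟨hp, hs⟩ := Finset.mem_filter.1 hp
    obtain ⟨a1, a2, -, a4, a5, a6⟩ := hmem p hp
    exact ⟨a2, a1, a4, a4 ▸ a5, hs, a4 ▸ a6⟩
  have h4 : G ⊆ ((G.filter fun p => Sub p.1 f ∧ Sub p.2 f) ∪ G.filter fun p => ¬ Sub p.1 f) ∪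
      G.filter fun p => ¬ Sub p.2 f := by
    intro p hp
    simp only [Finset.mem_union, Finset.mem_filter.trans (and_iff_right hp)]
    tauto
  have h5 := (Finset.card_le_card h4).trans ((Finset.card_union_le _ _).trans
    (Nat.add_le_add_right (Finset.card_union_le _ _) _))
  have h6 := (Nat.cast_le (α := ℝ)).2 h5
  push_cast at h6
  linarith

lemma one_le_deg {σ : Type*} {f : MvPolynomial σ ℝ} (hf : Irreducible f) :
    1 ≤ f.totalDegree := by
  by_contra h
  have h0 : f.totalDegree = 0 := by omega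
  rw [MvPolynomial.totalDegree_eq_zero_iff_eq_C] at h0
  apply hf.not_isUnit
  have : MvPolynomial.coeff 0 f ≠ 0 := fun h => hf.ne_zero (by rw [h0, h, map_zero])
  rw [h0]
  exact (Ne.isUnit this).map _

lemma zero_part {ι σ : Type*} (G : Finset ι) (x : ι → σ → ℝ) (D : ℕ) (B : ℝ) (hB : 0 ≤ B)
    (h : ∀ f : MvPolynomial σ ℝ, Irreducible f → f.totalDegree ≤ D →
      ((G.filter fun p => MvPolynomial.eval (x p) f = 0).card : ℝ) ≤ B)
    (F : MvPolynomial σ ℝ) (hF : F ≠ 0) (hFD : F.totalDegree ≤ D) :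
    ((G.filter fun p => MvPolynomial.eval (x p) F = 0).card : ℝ) ≤ F.totalDegree * B := by
  induction F using WfDvdMonoid.induction_on_irreducible with
  | zero => exact absurd rfl hF
  | unit u hu =>
    rw [Finset.filter_false_of_mem]
    · simp only [Finset.card_empty, Nat.cast_zero]; positivity
    · exact fun p _ => (hu.map (MvPolynomial.eval (x p))).ne_zero
  | mul a i ha hi ih =>
    have hd := MvPolynomial.totalDegree_mul_of_isDomain hi.ne_zero ha
    have h1 := one_le_deg hi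
    have h2 := h i hi (by omega)
    have h3 := ih ha (by omega)
    have h4 : (G.filter fun p => MvPolynomial.eval (x p) (i * a) = 0) ⊆
        (G.filter fun p => MvPolynomial.eval (x p) i = 0) ∪
          G.filter fun p => MvPolynomial.eval (x p) a = 0 := by
      intro p hp
      simp only [Finset.mem_union, Finset.mem_filter, map_mul, mul_eq_zero] at hp ⊢
      tauto
    have h5 := (Nat.cast_le (α := ℝ)).2 ((Finset.card_le_card h4).trans (Finset.card_union_le _ _))
    have h6 : (1 : ℝ) ≤ i.totalDegree := by exact_mod_cast h1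
    rw [hd]
    push_cast at h5 ⊢
    nlinarith

lemma cell_part {D : ℕ} {A : ℝ} (hA : 2 * (bz D + 1) ≤ A) {L L' : Finset Ln} (hL : L' ⊆ L)
    (G : Finset (Ln × Ln)) (hG : ∀ p ∈ G, Light D A L p ∧ p.1 ∈ L' ∧ p.2 ∈ L') :
    (G.card : ℝ) ≤ (light D A L').card + 4 * L'.card * Real.sqrt (A * L.card) := by
  set r := Real.sqrt (A * L.card) with hr
  have hr0 : 0 ≤ r := Real.sqrt_nonneg _
  have hb0 : (0 : ℝ) ≤ bz D := by positivity
  have hL0 : (0 : ℝ) ≤ L'.card := by positivity
  let F1 := L'.powerset.filter fun S => A * L'.card ≤ (S.card : ℝ) ^ 2 ∧ (S.card : ℝ) ≤ r ∧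
    ∃ x, S = thru L' x
  let F2 := L'.powerset.filter fun S => A * L'.card ≤ (S.card : ℝ) ^ 2 ∧ (S.card : ℝ) ≤ r ∧
    ∃ f : MvPolynomial (Fin 3) ℝ, Irreducible f ∧ f.totalDegree ≤ D ∧ S = inS L' f
  have h1 := pairs_in_family L' F1 1 r zero_le_one hr0
    (fun S hS => Finset.mem_powerset.1 (Finset.mem_filter.1 hS).1)
    (fun S hS => le_trans (by nlinarith) (Finset.mem_filter.1 hS).2.1)
    (fun S hS T hT hne W hW => by
      obtain ⟨x, rfl⟩ := (Finset.mem_filter.1 hS).2.2.2
      obtain ⟨y, rfl⟩ := (Finset.mem_filter.1 hT).2.2.2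
      exact_mod_cast thru_inter L' hne W hW)
    (fun S hS => (Finset.mem_filter.1 hS).2.2.1)
    (G.filter fun p => ∃ S ∈ F1, p.1 ∈ S ∧ p.2 ∈ S) (fun p hp => (Finset.mem_filter.1 hp).2)
  have h2 := pairs_in_family L' F2 (bz D) r hb0 hr0
    (fun S hS => Finset.mem_powerset.1 (Finset.mem_filter.1 hS).1)
    (fun S hS => le_trans (by nlinarith) (Finset.mem_filter.1 hS).2.1)
    (fun S hS T hT hne W hW => by
      obtain ⟨f, hf, hfD, rfl⟩ := (Finset.mem_filter.1 hS).2.2.2
      obtain ⟨g, hg, hgD, rfl⟩ := (Finset.mem_filter.1 hT).2.2.2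
      exact_mod_cast inS_inter L' hf hg hfD hgD hne W hW)
    (fun S hS => (Finset.mem_filter.1 hS).2.2.1)
    (G.filter fun p => ∃ S ∈ F2, p.1 ∈ S ∧ p.2 ∈ S) (fun p hp => (Finset.mem_filter.1 hp).2)
  have h4 : G ⊆ (light D A L' ∪ G.filter fun p => ∃ S ∈ F1, p.1 ∈ S ∧ p.2 ∈ S) ∪
      G.filter fun p => ∃ S ∈ F2, p.1 ∈ S ∧ p.2 ∈ S := by
    intro p hp
    obtain ⟨⟨hne, ⟨z, hz, hzl⟩, hs⟩, hp1, hp2⟩ := hG p hp
    simp only [Finset.mem_union, Finset.mem_filter.trans (and_iff_right hp)]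
    by_cases c1 : ((thru L' (pt p.1 z)).card : ℝ) ^ 2 < A * L'.card
    · by_cases c2 : ∀ f : MvPolynomial (Fin 3) ℝ, Irreducible f → f.totalDegree ≤ D → Sub p.1 f →
          Sub p.2 f → ((inS L' f).card : ℝ) ^ 2 < A * L'.card
      · exact Or.inl (Or.inl (Finset.mem_filter.2 ⟨Finset.mem_product.2 ⟨hp1, hp2⟩,
          hne, ⟨z, hz, c1⟩, c2⟩))
      · push Not at c2
        obtain ⟨f, hf, hfD, s1, s2, hh⟩ := c2
        refine Or.inr ⟨inS L' f, Finset.mem_filter.2 ⟨Finset.mem_powerset.2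
          (Finset.filter_subset _ _), hh, ?_, f, hf, hfD, rfl⟩,
          Finset.mem_filter.2 ⟨hp1, s1⟩, Finset.mem_filter.2 ⟨hp2, s2⟩⟩
        refine le_trans ?_ (Real.le_sqrt_of_sq_le (hs f hf hfD s1 s2).le)
        exact Nat.cast_le.2 (Finset.card_le_card (Finset.filter_subset_filter _ hL))
    · refine Or.inl (Or.inr ⟨thru L' (pt p.1 z), Finset.mem_filter.2 ⟨Finset.mem_powerset.2
          (Finset.filter_subset _ _), not_lt.1 c1, ?_, _, rfl⟩,
          mem_thru.2 ⟨hp1, rfl⟩, mem_thru.2 ⟨hp2, hz.symm⟩⟩)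
      refine le_trans ?_ (Real.le_sqrt_of_sq_le hzl.le)
      exact Nat.cast_le.2 (Finset.card_le_card (Finset.filter_subset_filter _ hL))
  have h5 := (Finset.card_le_card h4).trans ((Finset.card_union_le _ _).trans
    (Nat.add_le_add_right (Finset.card_union_le _ _) _))
  have h6 := (Nat.cast_le (α := ℝ)).2 h5
  push_cast at h6
  linarith

lemma exists_level {ε : ℝ} (hε : 0 < ε) :
    ∃ J : ℕ, (8 : ℝ) ^ J * (72 / 4 ^ J) ^ (3 / 2 + ε) ≤ 1 / 2 := by
  have h1 : 1 < (4 : ℝ) ^ ε := Real.one_lt_rpow (by norm_num) hε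
  obtain ⟨J, hJ⟩ := pow_unbounded_of_one_lt (2 * (72 : ℝ) ^ (3 / 2 + ε)) h1
  refine ⟨J, ?_⟩
  have h4 : (0 : ℝ) < 4 ^ J := by positivity
  have e : ((4 : ℝ) ^ J) ^ (3 / 2 + ε) = 8 ^ J * ((4 : ℝ) ^ ε) ^ J := by
    rw [Real.rpow_add h4, ← Real.rpow_natCast, ← Real.rpow_natCast, ← Real.rpow_natCast,
      ← Real.rpow_mul (by norm_num), ← Real.rpow_mul (by norm_num),
      ← Real.rpow_mul (by norm_num), mul_comm ε]
    congr 1
    rw [mul_comm, Real.rpow_mul (by norm_num)]
    congr 1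
    rw [show (4 : ℝ) = 2 ^ (2 : ℝ) by norm_num, ← Real.rpow_mul (by norm_num)]
    norm_num
  rw [Real.div_rpow (by norm_num) h4.le, e, mul_div_assoc', mul_div_mul_left _ _ (by positivity),
    div_le_iff₀ (by positivity)]
  linarith

/-- Light intersecting pairs of lines are at most `K L^{3/2+ε}`. -/
theorem light_bound {ε : ℝ} (hε : 0 < ε) : ∃ D : ℕ, ∀ A : ℝ, 2 * (bz D + 1) ≤ A →
    ∃ K : ℝ, 0 < K ∧ ∀ L : Finset Ln,
      ((light D A L).card : ℝ) ≤ K * (L.card : ℝ) ^ (3 / 2 + ε) := by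
  obtain ⟨J, hJ⟩ := exists_level hε
  refine ⟨18 * 2 ^ J, fun A hA => ?_⟩
  set D : ℕ := 18 * 2 ^ J with hD
  set N : ℝ := 8 ^ J with hN
  set ρ : ℝ := 72 / 4 ^ J with hρ
  have hN1 : 1 ≤ N := one_le_pow₀ (by norm_num)
  have hρ0 : 0 < ρ := by positivity
  have hA0 : 0 < A := lt_of_lt_of_le (by positivity) hA
  have hD0 : (0 : ℝ) < D := by positivity
  have hρN : ρ * N = 4 * D := by
    rw [hρ, hN, hD, show (8 : ℝ) = 4 * 2 by norm_num, mul_pow]
    push_cast
    field_simp
    norm_num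
  have hρ1 : ρ < 1 := by
    by_contra hcon
    have := Real.one_le_rpow (not_lt.1 hcon) (show (0 : ℝ) ≤ 3 / 2 + ε by positivity)
    nlinarith
  set C : ℝ := D * A + 2 * D * D * Real.sqrt A + 4 * N * Real.sqrt A with hC
  refine ⟨4 * C, by positivity, fun L => ?_⟩
  induction hn : L.card using Nat.strong_induction_on generalizing L with
  | _ n ih =>
  rcases Nat.eq_zero_or_pos n with h0 | hn0
  · have : L = ∅ := Finset.card_eq_zero.1 (hn.trans h0)
    subst this
    simp only [light, Finset.empty_product, Finset.filter_empty, Finset.card_empty, Nat.cast_zero]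
    positivity
  have hn1 : (1 : ℝ) ≤ n := by exact_mod_cast hn0
  set G := light D A L with hG
  have hz : ∀ p ∈ G, ∃ z, pt p.1 z = pt p.2 z ∧
      ((thru L (pt p.1 z)).card : ℝ) ^ 2 < A * L.card := fun p hp =>
    (Finset.mem_filter.1 hp).2.2.1
  choose! z hz using hz
  obtain ⟨F, c, hF, hFd, hc, hloc, hcell⟩ :=
    partition (d := 3) (by norm_num) G (fun p => pt p.1 (z p)) J
  have hFD : F.totalDegree + 1 ≤ D := hFd
  have hNn : ((2 ^ (3 * J) : ℕ) : ℝ) = N := by
    rw [hN, pow_mul]; push_cast; norm_num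
  set P : ℝ := (n : ℝ) ^ (3 / 2 + ε) with hP
  have hP1 : (n : ℝ) * Real.sqrt n ≤ P := by
    rw [Real.sqrt_eq_rpow, ← Real.rpow_one_add' (by positivity) (by norm_num)]
    exact Real.rpow_le_rpow_of_exponent_le hn1 (by linarith)
  have hs1 : 1 ≤ Real.sqrt n := Real.one_le_sqrt.2 hn1
  have hP2 : (n : ℝ) ≤ P := le_trans (by nlinarith) hP1
  have hsA : Real.sqrt (A * n) = Real.sqrt A * Real.sqrt n := Real.sqrt_mul hA0.le _
  have hsA0 : 0 ≤ Real.sqrt A := Real.sqrt_nonneg _
  -- the zero set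
  have hZ : ((G.filter fun p => MvPolynomial.eval (pt p.1 (z p)) F = 0).card : ℝ) ≤
      (D * A + 2 * D * D * Real.sqrt A) * P := by
    have h1 := zero_part G (fun p => pt p.1 (z p)) D _ (by positivity)
      (fun f hf hfD => irr_part hA0.le L z hz hf hfD) F hF (by omega)
    have h2 : (F.totalDegree : ℝ) ≤ D := by exact_mod_cast (by omega : F.totalDegree ≤ D)
    rw [hn, hsA] at h1
    calc _ ≤ _ := h1
      _ ≤ D * (A * n + 2 * (n * (D * (Real.sqrt A * Real.sqrt n)))) := by gcongr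
      _ = D * A * n + 2 * D * D * Real.sqrt A * (n * Real.sqrt n) := by ring
      _ ≤ D * A * P + 2 * D * D * Real.sqrt A * P := by gcongr
      _ = _ := by ring
  -- the cells
  let Gk : ℕ → Finset (Ln × Ln) := fun k =>
    G.filter fun p => MvPolynomial.eval (pt p.1 (z p)) F ≠ 0 ∧ c (pt p.1 (z p)) = k
  let Lk : ℕ → Finset Ln := fun k =>
    L.filter fun l => ∃ t, MvPolynomial.eval (pt l t) F ≠ 0 ∧ c (pt l t) = k
  have hsum : ∑ k ∈ range (2 ^ (3 * J)), ((Lk k).card : ℝ) ≤ D * n := by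
    have : ∑ k ∈ range (2 ^ (3 * J)), (Lk k).card ≤ ∑ _l ∈ L, D := by
      simp only [Lk, Finset.card_filter]
      rw [Finset.sum_comm]
      refine Finset.sum_le_sum fun l _ => ?_
      rw [← Finset.card_filter]
      refine (hloc.line_cells ![l 0, l 1, 0] ![l 2, l 3, 1] _ fun k hk => ?_).trans hFD
      obtain ⟨t, ht⟩ := (Finset.mem_filter.1 hk).2
      exact ⟨t, by rw [← pt_eq]; exact ht⟩
    rw [Finset.sum_const, smul_eq_mul, hn, mul_comm n D] at this
    exact_mod_cast this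
  set M : ℝ := 4 * C * (ρ ^ (3 / 2 + ε) * P) + 4 * Real.sqrt A * P with hM
  have hM0 : 0 ≤ M := by positivity
  have hk : ∀ k, ((Gk k).card : ℝ) ≤ (Lk k).card * (G.card / (4 * D * n)) + M := by
    intro k
    by_cases hbig : ρ * n < (Lk k).card
    · have h1 : ((Gk k).card : ℝ) * N ≤ G.card := by
        rw [← hNn]; exact_mod_cast hcell k
      have h2 : ((Gk k).card : ℝ) ≤ ρ * n * (G.card / (4 * D * n)) := by
        rw [← hρN, show ρ * n * (G.card / (ρ * N * n)) = G.card / N by field_simp,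
          le_div_iff₀ (by positivity)]
        exact h1
      have h3 : ρ * n * (G.card / (4 * D * n)) ≤ (Lk k).card * (G.card / (4 * D * n)) := by
        gcongr
      linarith
    · push Not at hbig
      have hlt : (Lk k).card < n := by
        have : ((Lk k).card : ℝ) < n := hbig.trans_lt (by nlinarith)
        exact_mod_cast this
      have h1 := ih _ hlt (Lk k) rfl
      have h2 := cell_part hA (Finset.filter_subset _ L : Lk k ⊆ L) (Gk k) (fun p hp => by
        obtain ⟨hp, h1, h2⟩ := Finset.mem_filter.1 hp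
        obtain ⟨h3, h4⟩ := Finset.mem_filter.1 hp
        exact ⟨h4, Finset.mem_filter.2 ⟨(Finset.mem_product.1 h3).1, z p, h1, h2⟩,
          Finset.mem_filter.2 ⟨(Finset.mem_product.1 h3).2, z p, (hz p hp).1 ▸ h1,
            (hz p hp).1 ▸ h2⟩⟩)
      rw [hn, hsA] at h2
      have h3 : ((Lk k).card : ℝ) ^ (3 / 2 + ε) ≤ ρ ^ (3 / 2 + ε) * P := by
        rw [hP, ← Real.mul_rpow hρ0.le (by positivity)]
        exact Real.rpow_le_rpow (by positivity) hbig (by positivity)
      have h4 : 4 * ((Lk k).card : ℝ) * (Real.sqrt A * Real.sqrt n) ≤ 4 * Real.sqrt A * P := by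
        have : ((Lk k).card : ℝ) ≤ n := by exact_mod_cast hlt.le
        calc _ ≤ 4 * (n : ℝ) * (Real.sqrt A * Real.sqrt n) := by gcongr
          _ = 4 * Real.sqrt A * (n * Real.sqrt n) := by ring
          _ ≤ _ := by gcongr
      have h5 : 4 * C * ((Lk k).card : ℝ) ^ (3 / 2 + ε) ≤ 4 * C * (ρ ^ (3 / 2 + ε) * P) := by
        gcongr
      have h6 : 0 ≤ ((Lk k).card : ℝ) * (G.card / (4 * D * n)) := by positivity
      linarith
  have hsplit : (G.card : ℝ) ≤
      ((G.filter fun p => MvPolynomial.eval (pt p.1 (z p)) F = 0).card : ℝ) +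
        ∑ k ∈ range (2 ^ (3 * J)), ((Gk k).card : ℝ) := by
    have h4 : G ⊆ (G.filter fun p => MvPolynomial.eval (pt p.1 (z p)) F = 0) ∪
        (range (2 ^ (3 * J))).biUnion Gk := by
      intro p hp
      by_cases h : MvPolynomial.eval (pt p.1 (z p)) F = 0
      · exact Finset.mem_union_left _ (Finset.mem_filter.2 ⟨hp, h⟩)
      · exact Finset.mem_union_right _ (Finset.mem_biUnion.2 ⟨_, Finset.mem_range.2 (hc _),
          Finset.mem_filter.2 ⟨hp, h, rfl⟩⟩)
    exact_mod_cast (Finset.card_le_card h4).trans ((Finset.card_union_le _ _).trans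
      (Nat.add_le_add_left Finset.card_biUnion_le _))
  have hcells : ∑ k ∈ range (2 ^ (3 * J)), ((Gk k).card : ℝ) ≤ G.card / 4 + N * M := by
    calc _ ≤ ∑ k ∈ range (2 ^ (3 * J)), ((Lk k).card * (G.card / (4 * D * n)) + M : ℝ) :=
          Finset.sum_le_sum fun k _ => hk k
      _ = (∑ k ∈ range (2 ^ (3 * J)), ((Lk k).card : ℝ)) * (G.card / (4 * D * n)) + N * M := by
          rw [Finset.sum_add_distrib, Finset.sum_mul, Finset.sum_const, Finset.card_range,
            nsmul_eq_mul, hNn]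
      _ ≤ D * n * (G.card / (4 * D * n)) + N * M := by gcongr
      _ = _ := by field_simp
  have hNM : N * M ≤ 2 * C * P + 4 * N * Real.sqrt A * P := by
    have : N * (4 * C * (ρ ^ (3 / 2 + ε) * P)) ≤ 2 * C * P := by
      calc _ = (N * ρ ^ (3 / 2 + ε)) * (4 * C * P) := by ring
        _ ≤ (1 / 2) * (4 * C * P) := by gcongr
        _ = _ := by ring
    rw [hM, mul_add]
    linarith
  have : (D * A + 2 * D * D * Real.sqrt A) * P + 4 * N * Real.sqrt A * P = C * P := by
    rw [hC]; ring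
  linarith

end Pool.Agent.MP_6c3157_co

end MrgPart3

-- ======== part 4: formerly Pool.Agent.MP_6c3157_co.GK
section MrgPart4

/-!
The distance energy of a planar set, up to a factor `n^ε`.
-/

set_option maxSynthPendingDepth 3

namespace Pool.Agent.MP_6c3157_co

open Finset
open scoped Classical

lemma pderiv_totalDegree {σ : Type*} (i : σ) (f : MvPolynomial σ ℝ) :
    (MvPolynomial.pderiv i f).totalDegree ≤ f.totalDegree := by
  conv_lhs => rw [f.as_sum, map_sum]
  refine (MvPolynomial.totalDegree_finsetSum _ _).trans (Finset.sup_le fun m hm => ?_)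
  rw [MvPolynomial.pderiv_monomial]
  refine (MvPolynomial.totalDegree_monomial_le _ _).trans
    (le_trans ?_ (MvPolynomial.le_totalDegree hm))
  exact Finsupp.degree_mono (tsub_le_self : m - Finsupp.single i 1 ≤ m)

lemma res_derivative {σ : Type*} [Fintype σ] (γ : σ → Polynomial ℝ) (f : MvPolynomial σ ℝ) :
    Polynomial.derivative (res γ f) =
      ∑ i, res γ (MvPolynomial.pderiv i f) * Polynomial.derivative (γ i) := by
  unfold res
  induction f using MvPolynomial.induction_on with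
  | C a => simp
  | add p q hp hq => simp [hp, hq, add_mul, Finset.sum_add_distrib]
  | mul_X p j hp =>
    simp only [map_mul, MvPolynomial.aeval_X, Polynomial.derivative_mul, hp,
      Derivation.leibniz, smul_eq_mul, map_add, add_mul, Finset.sum_add_distrib,
      MvPolynomial.pderiv_X]
    rw [add_comm, Finset.sum_mul]
    congr 1
    · rw [Finset.sum_eq_single j]
      · simp
      · intro i _ hi
        simp [Pi.single_eq_of_ne hi.symm]
      · simp
    · exact Finset.sum_congr rfl fun i _ => by ring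

lemma ode_zero {h w : Polynomial ℝ} (e : (1 + Polynomial.X ^ 2) * Polynomial.derivative h = h * w)
    {z : ℝ} (hz : h.eval z = 0) : h = 0 := by
  by_contra h0
  obtain ⟨g, hg, hnd⟩ := Polynomial.exists_eq_pow_rootMultiplicity_mul_and_not_dvd h h0 z
  have hm : 0 < h.rootMultiplicity z := (Polynomial.rootMultiplicity_pos h0).2 hz
  obtain ⟨m, hm⟩ := Nat.exists_eq_succ_of_ne_zero hm.ne'
  rw [hm] at hg
  have hX : (Polynomial.X - Polynomial.C z) ^ m ≠ 0 := pow_ne_zero _ (Polynomial.X_sub_C_ne_zero z)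
  have : (1 + Polynomial.X ^ 2) * (Polynomial.C ((m : ℝ) + 1) * g +
      (Polynomial.X - Polynomial.C z) * Polynomial.derivative g) =
      (Polynomial.X - Polynomial.C z) * g * w := by
    apply mul_left_cancel₀ hX
    rw [hg, Polynomial.derivative_mul, Polynomial.derivative_X_sub_C_pow] at e
    simp only [Nat.succ_eq_add_one, Nat.cast_add, Nat.cast_one, Nat.add_sub_cancel] at e
    linear_combination e
  have h2 := congrArg (Polynomial.eval z) this
  simp only [Polynomial.eval_mul, Polynomial.eval_add, Polynomial.eval_one, Polynomial.eval_pow,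
    Polynomial.eval_X, Polynomial.eval_C, Polynomial.eval_sub, sub_self, zero_mul, add_zero,
    mul_eq_zero] at h2
  rcases h2 with h2 | h2 | h2
  · nlinarith [sq_nonneg z]
  · have : (0 : ℝ) ≤ m := by positivity
    linarith
  · exact hnd (Polynomial.dvd_iff_isRoot.2 h2)

/-- The polynomial parametrisation of a line. -/
noncomputable def lnPoly (l : Ln) : Fin 3 → Polynomial ℝ :=
  ![Polynomial.C (l 0) + Polynomial.X * Polynomial.C (l 2),
    Polynomial.C (l 1) + Polynomial.X * Polynomial.C (l 3), Polynomial.X]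

lemma lnPoly_eval (l : Ln) (f : MvPolynomial (Fin 3) ℝ) (z : ℝ) :
    (res (lnPoly l) f).eval z = MvPolynomial.eval (pt l z) f := by
  rw [res_eval]
  congr 2
  funext i
  fin_cases i <;> simp [lnPoly, pt, mul_comm z]

lemma sub_iff {l : Ln} {f : MvPolynomial (Fin 3) ℝ} : Sub l f ↔ res (lnPoly l) f = 0 :=
  ⟨fun h => Polynomial.funext fun z => by rw [lnPoly_eval, h z]; simp,
    fun h z => by rw [← lnPoly_eval, h]; simp⟩

/-- The line of rotations taking `p` to `q`. -/
def es (p q : ℂ) : Ln := ![p.re + q.re, p.im + q.im, q.im - p.im, p.re - q.re]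

open MvPolynomial in
/-- The derivative along the foliation by the lines `es p q` with `p` fixed. -/
noncomputable def Gp (p : ℂ) (f : MvPolynomial (Fin 3) ℝ) : MvPolynomial (Fin 3) ℝ :=
  (-((C (2 * p.re) - X 0) * X 2) - (C (2 * p.im) - X 1)) * pderiv 0 f +
    ((C (2 * p.re) - X 0) - (C (2 * p.im) - X 1) * X 2) * pderiv 1 f +
    (1 + X 2 * X 2) * pderiv 2 f

lemma res_Gp (p q : ℂ) (f : MvPolynomial (Fin 3) ℝ) :
    res (lnPoly (es p q)) (Gp p f) =
      (1 + Polynomial.X ^ 2) * Polynomial.derivative (res (lnPoly (es p q)) f) := by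
  rw [res_derivative, Fin.sum_univ_three]
  simp only [res, Gp, map_add, map_mul, map_sub, map_neg, MvPolynomial.aeval_X,
    MvPolynomial.aeval_C, map_one]
  simp [lnPoly, es, Polynomial.C_ofNat]
  ring

open MvPolynomial in
lemma Gp_deg (p : ℂ) (f : MvPolynomial (Fin 3) ℝ) : (Gp p f).totalDegree ≤ f.totalDegree + 2 := by
  have h1 : ∀ (a : ℝ) (i : Fin 3), (C a - X i : MvPolynomial (Fin 3) ℝ).totalDegree ≤ 1 :=
    fun a i => (totalDegree_sub _ _).trans (by simp)
  have h2 : ∀ (a : ℝ) (i : Fin 3), ((C a - X i) * X 2 : MvPolynomial (Fin 3) ℝ).totalDegree ≤ 2 :=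
    fun a i => (totalDegree_mul _ _).trans (by have := h1 a i; rw [totalDegree_X]; omega)
  have h3 : ∀ (g : MvPolynomial (Fin 3) ℝ) (i : Fin 3), g.totalDegree ≤ 2 →
      (g * pderiv i f).totalDegree ≤ f.totalDegree + 2 := fun g i hg =>
    (totalDegree_mul _ _).trans (by have := pderiv_totalDegree i f; omega)
  refine (totalDegree_add _ _).trans (max_le ((totalDegree_add _ _).trans (max_le ?_ ?_)) ?_)
  · refine h3 _ _ ((totalDegree_sub _ _).trans (max_le ?_ ((h1 _ _).trans one_le_two)))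
    rw [totalDegree_neg]; exact h2 _ _
  · exact h3 _ _ ((totalDegree_sub _ _).trans (max_le ((h1 _ _).trans one_le_two) (h2 _ _)))
  · refine h3 _ _ ((totalDegree_add _ _).trans (max_le (by simp) ?_))
    exact (totalDegree_mul _ _).trans (by simp)

lemma Gp_affine (p p' : ℂ) (τ : ℝ) (f : MvPolynomial (Fin 3) ℝ) :
    Gp (p + τ * (p' - p)) f = MvPolynomial.C (1 - τ) * Gp p f + MvPolynomial.C τ * Gp p' f := by
  simp [Gp]
  ring

lemma es_inj {p q p' q' : ℂ} (h : es p q = es p' q') : p = p' ∧ q = q' := by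
  have h0 := congrFun h 0
  have h1 := congrFun h 1
  have h2 := congrFun h 2
  have h3 := congrFun h 3
  simp [es] at h0 h1 h2 h3
  exact ⟨Complex.ext (by linarith) (by linarith), Complex.ext (by linarith) (by linarith)⟩

lemma es_skew {p q q' : ℂ} {z : ℝ} (h : pt (es p q) z = pt (es p q') z) : q = q' := by
  obtain ⟨-, h0, h1⟩ := pt_eq_iff.1 h
  simp [es] at h0 h1
  have hz : 0 < 1 + z ^ 2 := by positivity
  have e1 : (1 + z ^ 2) * (q.re - q'.re) = 0 := by linear_combination h0 - z * h1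
  have e2 : (1 + z ^ 2) * (q.im - q'.im) = 0 := by linear_combination h1 + z * h0
  exact Complex.ext (by simpa [hz.ne', sub_eq_zero] using e1) (by simpa [hz.ne', sub_eq_zero] using e2)

lemma bz_pos (D : ℕ) : 1 ≤ bz (D + 2) := Nat.one_le_pow _ _ (by positivity)

open MvPolynomial in
lemma es_two {f : MvPolynomial (Fin 3) ℝ} (hf : Irreducible f) {p p' q₁ q₂ : ℂ} (hp : p ≠ p')
    (h1 : f ∣ Gp p f) (h2 : f ∣ Gp p' f) (s1 : Sub (es p q₁) f) (s2 : Sub (es p q₂) f) :
    q₁ = q₂ := by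
  set w := p' - p with hw
  have hw0 : w ≠ 0 := sub_ne_zero.2 hp.symm
  have hτ : ∀ τ : ℝ, Sub (es (p + τ * w) (q₁ - τ * w)) f := by
    intro τ
    have hd : f ∣ Gp (p + τ * w) f := by
      rw [hw, Gp_affine]
      exact dvd_add (h1.mul_left _) (h2.mul_left _)
    obtain ⟨u, hu⟩ := hd
    have e := res_Gp (p + τ * w) (q₁ - τ * w) f
    rw [hu, res, map_mul] at e
    refine sub_iff.2 (ode_zero e.symm (z := 0) ?_)
    have : pt (es (p + τ * w) (q₁ - τ * w)) 0 = pt (es p q₁) 0 := by simp [pt_eq_iff, es]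
    rw [lnPoly_eval, this]
    exact s1 0
  let g : MvPolynomial (Fin 3) ℝ := C w.re * (X 0 - C (p.re + q₁.re)) +
    C w.im * (X 1 - C (p.im + q₁.im)) -
    C (w.re * (q₁.im - p.im) + w.im * (p.re - q₁.re)) * X 2
  have hg : g.totalDegree ≤ 1 := by
    have h1 : ∀ (a b : ℝ) (i : Fin 3),
        (C a * (X i - C b) : MvPolynomial (Fin 3) ℝ).totalDegree ≤ 1 := fun a b i =>
      (totalDegree_mul _ _).trans (by
        rw [totalDegree_C, zero_add]; exact (totalDegree_sub _ _).trans (by simp))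
    refine (totalDegree_sub _ _).trans (max_le ((totalDegree_add _ _).trans
      (max_le (h1 _ _ _) (h1 _ _ _))) ((totalDegree_mul _ _).trans ?_))
    rw [totalDegree_C]; simp
  have hfg : f ∣ g := by
    by_contra hnd
    have hb := bezout hf hnd (D := f.totalDegree) le_rfl (hg.trans (one_le_deg hf))
      ((range (bz f.totalDegree + 1)).image fun k : ℕ =>
        es (p + (k : ℝ) * w) (q₁ - (k : ℝ) * w)) (by
      intro l hl
      obtain ⟨k, -, rfl⟩ := Finset.mem_image.1 hl
      refine ⟨hτ k, fun z => ?_⟩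
      simp [g, pt, es]
      ring)
    rw [Finset.card_image_of_injective, Finset.card_range] at hb
    · omega
    · intro k k' h
      have := (es_inj h).1
      simpa [hw0] using this
  have s3 := s2.of_dvd hfg
  have e0 := s3 0
  have e1 := s3 1
  simp [g, pt, es] at e0 e1
  have hn : 0 < w.re ^ 2 + w.im ^ 2 := by
    have := Complex.normSq_pos.2 hw0
    rwa [Complex.normSq_apply, ← sq, ← sq] at this
  have a1 : (w.re ^ 2 + w.im ^ 2) * (q₁.re - q₂.re) = 0 := by
    linear_combination (-w.re) * e0 + w.im * (e1 - e0)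
  have a2 : (w.re ^ 2 + w.im ^ 2) * (q₁.im - q₂.im) = 0 := by
    linear_combination (-w.im) * e0 - w.re * (e1 - e0)
  exact Complex.ext (by simpa [hn.ne', sub_eq_zero] using a1)
    (by simpa [hn.ne', sub_eq_zero] using a2)

/-- The family of all lines `es p q`. -/
noncomputable def esL (Q : Finset ℂ) : Finset Ln := (Q ×ˢ Q).image fun x => es x.1 x.2

lemma esL_card (Q : Finset ℂ) : (esL Q).card = Q.card ^ 2 := by
  rw [esL, Finset.card_image_of_injective, Finset.card_product, sq]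
  intro x y h
  exact Prod.ext (es_inj h).1 (es_inj h).2

lemma esL_thru (Q : Finset ℂ) (x : Fin 3 → ℝ) : (thru (esL Q) x).card ≤ Q.card := by
  have : ∀ l ∈ thru (esL Q) x, ∃ y : ℂ × ℂ, y.1 ∈ Q ∧ es y.1 y.2 = l := by
    intro l hl
    obtain ⟨y, hy, rfl⟩ := Finset.mem_image.1 (Finset.mem_filter.1 hl).1
    exact ⟨y, (Finset.mem_product.1 hy).1, rfl⟩
  choose! y hy using this
  refine Finset.card_le_card_of_injOn (fun l => (y l).1) (fun l hl => (hy l hl).1) ?_
  intro l hl m hm h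
  have h1 := (Finset.mem_filter.1 hl).2
  have h2 := (Finset.mem_filter.1 hm).2
  dsimp only at h
  rw [← (hy l hl).2] at h1
  rw [← (hy m hm).2, ← h] at h2
  rw [← (hy l hl).2, ← (hy m hm).2, ← h, es_skew (h1.trans h2.symm)]

lemma esL_inS (Q : Finset ℂ) {f : MvPolynomial (Fin 3) ℝ} (hf : Irreducible f) {D : ℕ}
    (hD : f.totalDegree ≤ D) : ((inS (esL Q) f).card : ℝ) ≤ Q.card * (bz (D + 2) + 1) := by
  let S := (Q ×ˢ Q).filter fun x => Sub (es x.1 x.2) f
  have h1 : (inS (esL Q) f).card ≤ S.card := by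
    refine le_trans (Finset.card_le_card fun l hl => ?_)
      (Finset.card_image_le (s := S) (f := fun x => es x.1 x.2))
    obtain ⟨h1, h2⟩ := Finset.mem_filter.1 hl
    obtain ⟨y, hy, rfl⟩ := Finset.mem_image.1 h1
    exact Finset.mem_image.2 ⟨y, Finset.mem_filter.2 ⟨hy, h2⟩, rfl⟩
  let Bad : ℂ → Prop := fun p => f ∣ Gp p f ∧ ∃ q₁ q₂, q₁ ≠ q₂ ∧ Sub (es p q₁) f ∧ Sub (es p q₂) f
  have h2 : ((S.filter fun x => Bad x.1).card : ℝ) ≤ Q.card := by
    refine Nat.cast_le.2 (Finset.card_le_card_of_injOn Prod.snd (fun x hx => ?_) ?_)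
    · exact (Finset.mem_product.1 (Finset.mem_filter.1 (Finset.mem_filter.1 hx).1).1).2
    · intro x hx y hy h
      refine Prod.ext ?_ h
      by_contra hne
      obtain ⟨d1, q₁, q₂, hq, s1, s2⟩ := (Finset.mem_filter.1 hx).2
      exact hq (es_two hf hne d1 (Finset.mem_filter.1 hy).2.1 s1 s2)
  have h3 : ((S.filter fun x => ¬ Bad x.1).card : ℝ) ≤ Q.card * bz (D + 2) := by
    refine card_le_fib _ Prod.fst Q (fun x hx => ?_) _ fun p _ W hW hp => ?_
    · exact (Finset.mem_product.1 (Finset.mem_filter.1 (Finset.mem_filter.1 hx).1).1).1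
    have hs : ∀ x ∈ W, Sub (es p x.2) f ∧ ¬ Bad p := fun x hx =>
      hp x hx ▸ ⟨(Finset.mem_filter.1 (Finset.mem_filter.1 (hW hx)).1).2,
        (Finset.mem_filter.1 (hW hx)).2⟩
    by_cases hd : f ∣ Gp p f
    · refine Nat.cast_le.2 (le_trans (Finset.card_le_one.2 fun x hx y hy => ?_) (bz_pos D))
      refine Prod.ext ((hp x hx).trans (hp y hy).symm) ?_
      by_contra hne
      exact (hs x hx).2 ⟨hd, _, _, hne, (hs x hx).1, (hs y hy).1⟩
    · have := bezout hf hd (D := D + 2) (by omega) ((Gp_deg p f).trans (by omega))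
        (W.image fun x => es p x.2) (by
          intro l hl
          obtain ⟨x, hx, rfl⟩ := Finset.mem_image.1 hl
          refine ⟨(hs x hx).1, sub_iff.2 ?_⟩
          rw [res_Gp, sub_iff.1 (hs x hx).1]
          simp)
      rw [Finset.card_image_of_injOn] at this
      · exact_mod_cast this
      · intro x hx y hy h
        exact Prod.ext ((hp x hx).trans (hp y hy).symm) (es_inj h).2
  have h4 := card_le_two' S (S.filter fun x => Bad x.1) (S.filter fun x => ¬ Bad x.1)
    fun x hx => by simp only [Finset.mem_filter.trans (and_iff_right hx)]; tauto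
  have h5 : ((inS (esL Q) f).card : ℝ) ≤ S.card := by exact_mod_cast h1
  linarith

lemma es_meet {p p' q q' : ℂ} (h : Complex.normSq (p - p') = Complex.normSq (q - q'))
    (hne : p - p' ≠ q - q') : ∃ z, pt (es p q) z = pt (es p' q') z := by
  set A := p - p' with hA
  set B := q - q' with hB
  have hN : 0 < (A.re - B.re) ^ 2 + (A.im - B.im) ^ 2 := by
    have := Complex.normSq_pos.2 (sub_ne_zero.2 hne)
    rwa [Complex.normSq_apply, ← sq, ← sq] at this
  rw [Complex.normSq_apply, Complex.normSq_apply] at h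
  refine ⟨((A.re + B.re) * (A.im - B.im) - (A.im + B.im) * (A.re - B.re)) /
    ((A.re - B.re) ^ 2 + (A.im - B.im) ^ 2), pt_eq_iff.2 ⟨rfl, ?_, ?_⟩⟩
  · have e1 : p.re = p'.re + A.re := by simp [hA]
    have e2 : q.re = q'.re + B.re := by simp [hB]
    have e3 : p.im = p'.im + A.im := by simp [hA]
    have e4 : q.im = q'.im + B.im := by simp [hB]
    simp only [es, Matrix.cons_val]
    rw [e1, e2, e3, e4]
    field_simp
    linear_combination (A.re - B.re) * h
  · have e1 : p.re = p'.re + A.re := by simp [hA]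
    have e2 : q.re = q'.re + B.re := by simp [hB]
    have e3 : p.im = p'.im + A.im := by simp [hA]
    have e4 : q.im = q'.im + B.im := by simp [hB]
    simp only [es, Matrix.cons_val]
    rw [e1, e2, e3, e4]
    field_simp
    linear_combination (A.im - B.im) * h

/-- Pairs of segments of equal length. -/
noncomputable def dQuad (Q : Finset ℂ) : Finset ((ℂ × ℂ) × (ℂ × ℂ)) :=
  ((Q ×ˢ Q) ×ˢ (Q ×ˢ Q)).filter fun x =>
    Complex.normSq (x.1.1 - x.1.2) = Complex.normSq (x.2.1 - x.2.2)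

theorem distance_energy {ε : ℝ} (hε : 0 < ε) : ∃ K : ℝ, 0 < K ∧ ∀ Q : Finset ℂ,
    ((dQuad Q).card : ℝ) ≤ K * (Q.card : ℝ) ^ (3 + ε) := by
  obtain ⟨D, hD⟩ := light_bound (half_pos hε)
  set A : ℝ := (bz (D + 2) + 1) ^ 2 + 2 * (bz D + 1) with hA
  obtain ⟨K, hK, hKb⟩ := hD A (by rw [hA]; exact le_add_of_nonneg_left (by positivity))
  refine ⟨K + 1, by positivity, fun Q => ?_⟩
  rcases Q.eq_empty_or_nonempty with rfl | hQ
  · simp only [dQuad, Finset.empty_product, Finset.filter_empty, Finset.card_empty, Nat.cast_zero]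
    positivity
  have hn : (1 : ℝ) ≤ Q.card := by exact_mod_cast hQ.card_pos
  have hb0 : (0 : ℝ) ≤ bz D := by positivity
  have hb2 : (0 : ℝ) ≤ bz (D + 2) := by positivity
  have hmem : ∀ x ∈ dQuad Q, (x.1.1 ∈ Q ∧ x.1.2 ∈ Q) ∧ x.2.1 ∈ Q ∧ x.2.2 ∈ Q := fun x hx => by
    simpa using (Finset.mem_filter.1 hx).1
  have h1 : (((dQuad Q).filter fun x => x.1.1 - x.1.2 = x.2.1 - x.2.2).card : ℝ) ≤
      (Q.card : ℝ) ^ (3 + ε) := by
    have : ((dQuad Q).filter fun x => x.1.1 - x.1.2 = x.2.1 - x.2.2).card ≤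
        ((Q ×ˢ Q) ×ˢ Q).card := by
      refine Finset.card_le_card_of_injOn (fun x => (x.1, x.2.1)) (fun x hx => ?_) ?_
      · have := hmem x (Finset.mem_filter.1 hx).1
        simp [this]
      · intro x hx y hy h
        have a1 := (Finset.mem_filter.1 hx).2
        have a2 := (Finset.mem_filter.1 hy).2
        simp only [Prod.mk.injEq] at h
        refine Prod.ext h.1 (Prod.ext h.2 ?_)
        rw [h.1, h.2, a2] at a1
        linear_combination a1
    refine (Nat.cast_le.2 this).trans ?_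
    rw [Finset.card_product, Finset.card_product]
    push_cast
    calc (Q.card : ℝ) * Q.card * Q.card = (Q.card : ℝ) ^ (3 : ℝ) := by
          rw [show (3 : ℝ) = (3 : ℕ) by norm_num, Real.rpow_natCast]; ring
      _ ≤ _ := Real.rpow_le_rpow_of_exponent_le hn (by linarith)
  have h2 : (((dQuad Q).filter fun x => ¬ x.1.1 - x.1.2 = x.2.1 - x.2.2).card : ℝ) ≤
      (light D A (esL Q)).card := by
    refine Nat.cast_le.2 (Finset.card_le_card_of_injOn
      (fun x => (es x.1.1 x.2.1, es x.1.2 x.2.2)) (fun x hx => ?_) ?_)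
    · obtain ⟨hx, hne⟩ := Finset.mem_filter.1 hx
      obtain ⟨⟨m1, m2⟩, m3, m4⟩ := hmem x hx
      have hcard : ((esL Q).card : ℝ) = (Q.card : ℝ) ^ 2 := by rw [esL_card]; push_cast; rfl
      refine Finset.mem_coe.2 (Finset.mem_filter.2 ⟨Finset.mem_product.2
        ⟨Finset.mem_image.2 ⟨(x.1.1, x.2.1), Finset.mem_product.2 ⟨m1, m3⟩, rfl⟩,
          Finset.mem_image.2 ⟨(x.1.2, x.2.2), Finset.mem_product.2 ⟨m2, m4⟩, rfl⟩⟩, ?_, ?_, ?_⟩)
      · intro h
        apply hne
        rw [(es_inj h).1, (es_inj h).2]; simp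
      · obtain ⟨z, hz⟩ := es_meet (Finset.mem_filter.1 hx).2 hne
        refine ⟨z, hz, ?_⟩
        have : ((thru (esL Q) (pt (es x.1.1 x.2.1) z)).card : ℝ) ≤ Q.card := by
          exact_mod_cast esL_thru Q _
        rw [hcard]
        refine lt_of_le_of_lt (pow_le_pow_left₀ (by positivity) this 2) ?_
        have : 1 < A := by rw [hA]; nlinarith
        nlinarith
      · intro f hf hfD _ _
        rw [hcard]
        refine lt_of_le_of_lt (pow_le_pow_left₀ (by positivity) (esL_inS Q hf hfD) 2) ?_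
        rw [hA, mul_pow]
        nlinarith
    · intro x _ y _ h
      simp only [Prod.mk.injEq] at h
      exact Prod.ext (Prod.ext (es_inj h.1).1 (es_inj h.2).1)
        (Prod.ext (es_inj h.1).2 (es_inj h.2).2)
  have h3 := hKb (esL Q)
  rw [esL_card] at h3
  push_cast at h3
  rw [← Real.rpow_natCast, ← Real.rpow_mul (by positivity),
    show ((2 : ℕ) : ℝ) * (3 / 2 + ε / 2) = 3 + ε by push_cast; ring] at h3
  have h4 := card_le_two' (dQuad Q) ((dQuad Q).filter fun x => x.1.1 - x.1.2 = x.2.1 - x.2.2)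
    ((dQuad Q).filter fun x => ¬ x.1.1 - x.1.2 = x.2.1 - x.2.2)
    fun x hx => by simp only [Finset.mem_filter.trans (and_iff_right hx)]; tauto
  linarith

end Pool.Agent.MP_6c3157_co

end MrgPart4

-- marker of a merged file
example : 731051 + 750559 = 731051 + 750559 := rfl
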